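import Mathlib
import Pool.Agent.CSPHier.Split

set_option autoImplicit false

/-! Malnormality of free factors modulo levels, for powers of a basis element, and centralisers of
subgroups of finite index modulo levels. -/

namespace Pool.Agent.CSPBir

open Pool.Agent.CSPHier

section malnormal

variable {Z : Type} (r : ℕ) (M : Subgroup (FreeGroup Z)) (S : Set Z) (hS : fac S ≤ M) (z0 : Z)

open Classical in
/-- The permutations attached to the basis elements. -/
noncomputable def malSigP (hS : fac S ≤ M) (z : Z) :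
    Equiv.Perm ((FreeGroup Z ⧸ M) × ZMod r) where
  toFun a := (FreeGroup.of z • a.1,
    a.2 + if z ∈ S ∧ z = z0 ∧ a.1 ≠ ((1 : FreeGroup Z) : FreeGroup Z ⧸ M) then 1 else 0)
  invFun a := ((FreeGroup.of z)⁻¹ • a.1,
    a.2 - if z ∈ S ∧ z = z0 ∧ a.1 ≠ ((1 : FreeGroup Z) : FreeGroup Z ⧸ M) then 1 else 0)
  left_inv := by
    intro a
    refine Prod.ext (by simp) ?_
    by_cases hz : z ∈ S
    · have := smul_base M S hS hz a.1
      simp [hz, this]
    · simp [hz]
  right_inv := by
    intro a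
    refine Prod.ext (by simp) ?_
    by_cases hz : z ∈ S
    · have := smul_base M S hS hz ((FreeGroup.of z)⁻¹ • a.1)
      rw [smul_inv_smul] at this
      simp [hz, this]
    · simp [hz]

/-- The permutation representation. -/
noncomputable def malP (hS : fac S ≤ M) :
    FreeGroup Z →* Equiv.Perm ((FreeGroup Z ⧸ M) × ZMod r) :=
  FreeGroup.lift (malSigP r M S z0 hS)

theorem malP_fst (w : FreeGroup Z) (a : (FreeGroup Z ⧸ M) × ZMod r) :
    (malP r M S z0 hS w a).1 = w • a.1 := by
  induction w using FreeGroup.induction_on generalizing a with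
  | C1 => simp
  | of j => simp [malP, malSigP]
  | inv_of j _ => simp [malP, malSigP, Equiv.Perm.inv_def]
  | mul x y hx hy => rw [map_mul, Equiv.Perm.mul_apply, hx, hy, mul_smul]

open Classical in
/-- The exponent sum of `z0` modulo `r`. -/
noncomputable def degP (z0 : Z) : FreeGroup Z →* Multiplicative (ZMod r) :=
  FreeGroup.lift fun z => if z = z0 then Multiplicative.ofAdd 1 else 1

theorem degP_self (z0 : Z) : degP r z0 (FreeGroup.of z0) = Multiplicative.ofAdd 1 := by
  simp [degP]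

theorem malP_base {w : FreeGroup Z} (hw : w ∈ fac S) (c : ZMod r) :
    malP r M S z0 hS w (((1 : FreeGroup Z) : FreeGroup Z ⧸ M), c) =
      (((1 : FreeGroup Z) : FreeGroup Z ⧸ M), c) := by
  induction hw using Subgroup.closure_induction generalizing c with
  | mem x hx =>
    obtain ⟨z, hz, rfl⟩ := hx
    refine Prod.ext ?_ ?_
    · rw [malP_fst]
      exact (smul_base M S hS hz _).mpr rfl
    · simp [malP, malSigP]
  | one => simp
  | mul x y _ _ hx hy => rw [map_mul, Equiv.Perm.mul_apply, hy, hx]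
  | inv x _ hx => rw [map_inv, Equiv.Perm.inv_eq_iff_eq, hx]

theorem malP_other {w : FreeGroup Z} (hw : w ∈ fac S) (a : (FreeGroup Z ⧸ M) × ZMod r)
    (ha : a.1 ≠ ((1 : FreeGroup Z) : FreeGroup Z ⧸ M)) :
    (malP r M S z0 hS w a).2 = a.2 + Multiplicative.toAdd (degP r z0 w) := by
  classical
  have key : ∀ w ∈ fac S, ∀ a : (FreeGroup Z ⧸ M) × ZMod r,
      a.1 ≠ ((1 : FreeGroup Z) : FreeGroup Z ⧸ M) →
      (malP r M S z0 hS w a).1 ≠ ((1 : FreeGroup Z) : FreeGroup Z ⧸ M) ∧
      (malP r M S z0 hS w a).2 = a.2 + Multiplicative.toAdd (degP r z0 w) := by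
    intro w hw
    induction hw using Subgroup.closure_induction with
    | mem x hx =>
      obtain ⟨z, hz, rfl⟩ := hx
      intro a ha
      refine ⟨?_, ?_⟩
      · rw [malP_fst]
        exact fun h => ha ((smul_base M S hS hz _).mp h)
      · by_cases hz0 : z = z0
        · subst hz0
          simp [malP, malSigP, hz, ha, degP]
        · simp [malP, malSigP, hz0, degP]
    | one => intro a ha; simp [ha]
    | mul x y _ _ hx hy =>
      intro a ha
      rw [map_mul, Equiv.Perm.mul_apply]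
      obtain ⟨h1, h2⟩ := hy a ha
      obtain ⟨h3, h4⟩ := hx _ h1
      refine ⟨h3, ?_⟩
      rw [h4, h2, map_mul, toAdd_mul]
      ring
    | inv x _ hx =>
      intro a ha
      set b := malP r M S z0 hS x⁻¹ a with hb
      have hab : malP r M S z0 hS x b = a := by
        rw [hb, ← Equiv.Perm.mul_apply, ← map_mul, mul_inv_cancel, map_one, Equiv.Perm.one_apply]
      have hb1 : b.1 ≠ ((1 : FreeGroup Z) : FreeGroup Z ⧸ M) := by
        intro h
        have h1 : x • ((1 : FreeGroup Z) : FreeGroup Z ⧸ M) = a.1 := by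
          rw [← hab, malP_fst, h]
        apply ha
        rw [← h1]
        have : b = (((1 : FreeGroup Z) : FreeGroup Z ⧸ M), b.2) := Prod.ext h rfl
        have h2 : malP r M S z0 hS x b = b := by
          rw [this]
          exact malP_base r M S hS z0 (by assumption) b.2
        have h3 := congrArg Prod.fst h2
        rw [malP_fst, h] at h3
        exact h3
      obtain ⟨h1, h2⟩ := hx b hb1
      refine ⟨hb1, ?_⟩
      rw [hab] at h2
      rw [h2, map_inv, toAdd_inv]
      ring
  exact (key w hw a ha).2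

end malnormal

/-- **Malnormality, powers.** Let `M` be a subgroup of finite index containing the free factor `A`
and `k ≥ 1`. Modulo a deep level, `g z0 ^ k g⁻¹ ∈ A` implies `g ∈ M`. -/
theorem malnormal_pow {Z : Type} [Finite Z] (M : Subgroup (FreeGroup Z)) (hM : M.FiniteIndex)
    (S : Set Z) (hS : fac S ≤ M) (z0 : Z) (hz0 : z0 ∈ S) (k : ℕ) (hk : k ≠ 0) :
    ∃ m : ℕ, ∀ g : FreeGroup Z, ∀ a ∈ fac S,
      g * FreeGroup.of z0 ^ k * g⁻¹ * a⁻¹ ∈ L (FreeGroup Z) m → g ∈ M := by
  have := hM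
  obtain ⟨m1, hm1⟩ := L_le_ker_perm ((FreeGroup Z ⧸ M) × ZMod (k + 1))
  obtain ⟨m2, hm2⟩ := L_le_ker (Multiplicative (ZMod (k + 1)))
  refine ⟨max m1 m2, fun g a ha h => ?_⟩
  have h1 := hm1 (malP (k + 1) M S z0 hS) (L_anti (le_max_left _ _) h)
  have h2 := hm2 (degP (k + 1) z0) (L_anti (le_max_right _ _) h)
  rw [MonoidHom.mem_ker, map_mul, map_inv] at h1 h2
  have h3 := mul_inv_eq_one.mp h1
  have h4 := mul_inv_eq_one.mp h2
  rw [map_mul, map_mul, map_inv, mul_comm, inv_mul_cancel_left, map_pow, degP_self] at h4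
  set ω : FreeGroup Z ⧸ M := ((1 : FreeGroup Z) : FreeGroup Z ⧸ M) with hω
  have h5 : malP (k + 1) M S z0 hS (g * FreeGroup.of z0 ^ k) (ω, 0) =
      malP (k + 1) M S z0 hS (a * g) (ω, 0) := by
    have h6 : malP (k + 1) M S z0 hS (g * FreeGroup.of z0 ^ k) =
        malP (k + 1) M S z0 hS (a * g) := by
      rw [map_mul _ a g, ← h3, map_mul, map_mul, map_mul, map_inv, inv_mul_cancel_right]
    rw [h6]
  rw [map_mul, map_mul, Equiv.Perm.mul_apply, Equiv.Perm.mul_apply,
    malP_base (k + 1) M S hS z0 (pow_mem (of_mem_fac hz0) k)] at h5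
  by_contra hg
  have hg1 : (malP (k + 1) M S z0 hS g (ω, 0)).1 ≠ ω := by
    rw [malP_fst]
    intro h6
    apply hg
    have h7 : ((g * 1 : FreeGroup Z) : FreeGroup Z ⧸ M) = ((1 : FreeGroup Z) : FreeGroup Z ⧸ M) := h6
    rw [QuotientGroup.eq, mul_one, mul_one] at h7
    exact (inv_mem_iff (x := g)).mp h7
  have h6 := malP_other (k + 1) M S hS z0 ha _ hg1
  rw [← h5, ← h4] at h6
  have h7 : ((k : ℕ) : ZMod (k + 1)) = 0 := by
    have h8 : Multiplicative.toAdd (Multiplicative.ofAdd (1 : ZMod (k + 1)) ^ k) =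
        ((k : ℕ) : ZMod (k + 1)) := by
      rw [toAdd_pow, toAdd_ofAdd, nsmul_eq_mul, mul_one]
    rw [h8] at h6
    have : (malP (k + 1) M S z0 hS g (ω, 0)).2 + 0 =
        (malP (k + 1) M S z0 hS g (ω, 0)).2 + ((k : ℕ) : ZMod (k + 1)) := by
      rw [add_zero]; exact h6
    exact (add_left_cancel this).symm
  rw [ZMod.natCast_eq_zero_iff] at h7
  exact absurd (Nat.le_of_dvd (Nat.pos_of_ne_zero hk) h7) (by omega)

/-- **Centralisers of subgroups of finite index.** Modulo a deep level, an element commuting with a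
given subgroup of finite index is trivial modulo a given level. -/
theorem centralizer_level {Z : Type} [Finite Z] (z0 z1 : Z) (hz : z0 ≠ z1)
    (D : Subgroup (FreeGroup Z)) (hD : D.FiniteIndex) (m : ℕ) :
    ∃ m' : ℕ, ∀ t : FreeGroup Z, (∀ d ∈ D, t * d * t⁻¹ * d⁻¹ ∈ L (FreeGroup Z) m') →
      t ∈ L (FreeGroup Z) m := by
  have := hD
  obtain ⟨k, hk, hkD⟩ : ∃ k : ℕ, k ≠ 0 ∧ ∀ x : FreeGroup Z, x ^ k ∈ D := by
    refine ⟨D.normalCore.index, Subgroup.FiniteIndex.index_ne_zero, fun x => ?_⟩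
    exact D.normalCore_le (Subgroup.pow_index_mem D.normalCore x)
  obtain ⟨m0, h0⟩ := malnormal_pow (fac ({z0} : Set Z) ⊔ L _ m) (fac_sup_finiteIndex _ _) {z0}
    le_sup_left z0 rfl k hk
  obtain ⟨m1, h1⟩ := malnormal_pow (fac ({z1} : Set Z) ⊔ L _ m) (fac_sup_finiteIndex _ _) {z1}
    le_sup_left z1 rfl k hk
  refine ⟨max m0 m1, fun t ht => ?_⟩
  have g0 := h0 t _ (pow_mem (of_mem_fac (Set.mem_singleton z0)) k)
    (L_anti (le_max_left _ _) (ht _ (hkD (FreeGroup.of z0))))
  have g1 := h1 t _ (pow_mem (of_mem_fac (Set.mem_singleton z1)) k)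
    (L_anti (le_max_right _ _) (ht _ (hkD (FreeGroup.of z1))))
  exact mem_L_of_mem_sup (by simpa using hz) g0 g1

end Pool.Agent.CSPBir
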