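import Mathlib
import Pool.Agent.CSPHier.Split

set_option autoImplicit false

/-! The congruence property for Birman extensions (point pushing). -/

namespace Pool.Agent.CSPBir

open Pool.Agent.CSPHier

/-- A level is contained in every subgroup of bounded index. -/
theorem L_le_of_index_le {G : Type} [Group G] (M : Subgroup G) (j : ℕ) (h0 : M.index ≠ 0)
    (hj : M.index ≤ j) : L G j ≤ M := by
  refine le_trans (L_anti hj) ?_
  have hfi : M.FiniteIndex := ⟨h0⟩
  have hfin : Finite (G ⧸ M) := inferInstance
  let e : (G ⧸ M) ≃ Fin M.index := Finite.equivFinOfCardEq rfl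
  intro x hx
  have h1 := mem_L.mp hx (e.permCongrHom.toMonoidHom.comp (MulAction.toPermHom G (G ⧸ M)))
  have h2 : e.permCongrHom (MulAction.toPermHom G (G ⧸ M) x) = 1 := h1
  have h3 : MulAction.toPermHom G (G ⧸ M) x = 1 :=
    (map_eq_one_iff _ e.permCongrHom.injective).mp h2
  have h4 := congrArg (fun f : Equiv.Perm (G ⧸ M) => f ((1 : G) : G ⧸ M)) h3
  have h5 : ((x * 1 : G) : G ⧸ M) = ((1 : G) : G ⧸ M) := h4
  rw [QuotientGroup.eq, mul_one, mul_one] at h5
  exact (inv_mem_iff (x := x)).mp h5

theorem index_comap_le {G H : Type*} [Group G] [Group H] (f : G →* H) (K : Subgroup H)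
    [K.Normal] (hK : K.index ≠ 0) : (K.comap f).index ≤ K.index := by
  rw [Subgroup.index_comap]
  exact Nat.le_of_dvd (Nat.pos_of_ne_zero hK) (Subgroup.relIndex_dvd_index_of_normal _ _)

section push

variable {X : Type}

/-- Point pushing relative to the boundary element `d`. The stable letter `t = of none` is the
point which is pushed: `p c` is trivial modulo `t`, it maps `t` to the conjugate of `t` or `t⁻¹` by
an element which is `c⁻¹` modulo `t`, it fixes the new boundary element `d t`, and pushing around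
`d` is the quotient of the conjugation by `d` on the old group (fixing `t`) by the conjugation by
`d t`. -/
structure IsPush (d : FreeGroup X) (p : FreeGroup X →* MulAut (FreeGroup (Option X))) : Prop where
  triv : ∀ (c : FreeGroup X) (w : FreeGroup (Option X)), retO (p c w) = retO w
  moves : ∀ c : FreeGroup X, ∃ h : FreeGroup (Option X), retO h = c⁻¹ ∧
    (p c (FreeGroup.of none) = h * FreeGroup.of none * h⁻¹ ∨
      p c (FreeGroup.of none) = h * (FreeGroup.of none)⁻¹ * h⁻¹)
  fixes : ∀ c : FreeGroup X, p c (FreeGroup.map some d * FreeGroup.of none) =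
    FreeGroup.map some d * FreeGroup.of none
  full : p d = (MulAut.conj (FreeGroup.map some d * FreeGroup.of none))⁻¹ * extO (MulAut.conj d)

theorem retO_none : retO (FreeGroup.of (none : Option X)) = 1 := by simp [retO]

theorem extO_some (β : MulAut (FreeGroup X)) (w : FreeGroup X) :
    extO β (FreeGroup.map some w) = FreeGroup.map some (β w) := loopAut_some _ _ _ _

theorem extO_none (β : MulAut (FreeGroup X)) :
    extO β (FreeGroup.of (none : Option X)) = FreeGroup.of none := by
  change loopAut β 1 1 _ = _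
  rw [loopAut_none]
  simp

theorem mem_fac_none {m : ℕ} {g : FreeGroup (Option X)}
    (hg : g ∈ fac ({none} : Set (Option X)) ⊔ L (FreeGroup (Option X)) m) :
    ∃ (k : ℤ) (l : FreeGroup (Option X)), l ∈ L (FreeGroup (Option X)) m ∧
      g = (FreeGroup.of none) ^ k * l := by
  rw [Subgroup.mem_sup_of_normal_right] at hg
  obtain ⟨a, ha, l, hl, rfl⟩ := hg
  rw [fac, Set.image_singleton, Subgroup.mem_closure_singleton] at ha
  obtain ⟨k, rfl⟩ := ha
  exact ⟨k, l, hl, rfl⟩

/-- The change of basis `t ↦ d t`. -/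
def chi (d : FreeGroup X) : MulAut (FreeGroup (Option X)) := loopAut 1 d 1

theorem chi_none (d : FreeGroup X) : chi d (FreeGroup.of none) =
    FreeGroup.map some d * FreeGroup.of none := by
  rw [chi, loopAut_none]
  simp

/-- **Congruence property for Birman extensions.** The level does not depend on the boundary
element and on the pushing homomorphism. -/
theorem good_push [Finite X] (A : MulAut (FreeGroup X) → Prop)
    (hA : Good X A) (hinn : ∀ a α, A α → A (MulAut.conj a * α)) :
    Good (Option X) (fun φ => ∃ (d : FreeGroup X) (p : FreeGroup X →* MulAut (FreeGroup (Option X)))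
      (c : FreeGroup X) (β : MulAut (FreeGroup X)) (g : FreeGroup (Option X)),
      IsPush d p ∧ A β ∧ β d = d ∧ φ = MulAut.conj g * (p c * extO β)) := by
  intro N' hN'
  have := hN'
  let N : Subgroup (MulAut (FreeGroup (Option X))) := N'.normalCore
  have hN : N.FiniteIndex := inferInstance
  have hNn : N.Normal := inferInstance
  have hN0 : N.index ≠ 0 := hN.index_ne_zero
  obtain ⟨mX, hmX⟩ := hA (N.comap extO) (comap_finiteIndex _ _ hN)
  obtain ⟨mc, hmc⟩ := exists_L_le (N.comap (MulAut.conj : FreeGroup (Option X) →* _))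
    (comap_finiteIndex _ _ hN)
  obtain ⟨mA, hmA⟩ : ∃ mA, mA = max mX (max mc N.index) := ⟨_, rfl⟩
  have l1 : mX ≤ mA := by rw [hmA]; exact le_max_left _ _
  have l2 : mc ≤ mA := by rw [hmA]; exact (le_max_left _ _).trans (le_max_right _ _)
  have l3 : N.index ≤ mA := by rw [hmA]; exact (le_max_right _ _).trans (le_max_right _ _)
  obtain ⟨m2, hm2⟩ := malnormal (fac ({none} : Set (Option X)) ⊔ L _ mA)
    (fac_sup_finiteIndex _ _) {none} le_sup_left none rfl
  obtain ⟨m3, hm3⟩ := malnormal (fac ({none} : Set (Option X)) ⊔ L _ (max mA m2))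
    (fac_sup_finiteIndex _ _) {none} le_sup_left none rfl
  obtain ⟨m4, hm4⟩ := L_le_ker (Multiplicative (ZMod 3))
  refine ⟨max (max (max mA m2) m3) m4, ?_⟩
  rintro φ ⟨d, p, c, β, g, hp, hβ, hβd, rfl⟩ hφ
  refine N'.normalCore_le ?_
  change _ ∈ N
  have hφB : MulAut.conj g * (p c * extO β) ∈ cong _ (max mA m2) :=
    cong_anti ((le_max_left _ _).trans (le_max_left _ _)) hφ
  have hφ3 : MulAut.conj g * (p c * extO β) ∈ cong _ m3 :=
    cong_anti ((le_max_right _ _).trans (le_max_left _ _)) hφ
  have hφ4 : MulAut.conj g * (p c * extO β) ∈ cong _ m4 := cong_anti (le_max_right _ _) hφ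
  obtain ⟨u, hu⟩ : ∃ u, u = FreeGroup.map some d * FreeGroup.of (none : Option X) := ⟨_, rfl⟩
  have hpu : ∀ c, p c u = u := by intro c; rw [hu]; exact hp.fixes c
  have heu : extO β u = u := by rw [hu, map_mul, extO_some, extO_none, hβd]
  have hru : retO u = d := by rw [hu, map_mul, retO_some, retO_none, mul_one]
  -- the conjugating element
  obtain ⟨k, l, hl, hgl⟩ : ∃ (k : ℤ) (l : FreeGroup (Option X)),
      l ∈ L (FreeGroup (Option X)) (max mA m2) ∧ g = l * u ^ k := by
    have e1 := mem_cong.mp hφ3 u
    rw [MulAut.mul_apply, MulAut.mul_apply, heu, hpu, MulAut.conj_apply] at e1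
    have e2 : (chi d)⁻¹ g * FreeGroup.of none * ((chi d)⁻¹ g)⁻¹ * (FreeGroup.of none)⁻¹ ∈
        L (FreeGroup (Option X)) m3 := by
      rw [← L_apply_iff (chi d), map_mul, map_mul, map_mul, map_inv, map_inv, chi_none,
        MulAut.apply_inv_self, ← hu]
      exact e1
    obtain ⟨k, l, hl, hgl⟩ := mem_fac_none (hm3 _ _ (of_mem_fac (Set.mem_singleton none)) e2)
    have e3 : g = u ^ k * chi d l := by
      have h1 := congrArg (chi d) hgl
      rw [MulAut.apply_inv_self, map_mul, map_zpow, chi_none, ← hu] at h1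
      exact h1
    refine ⟨k, u ^ k * chi d l * (u ^ k)⁻¹, (L_normal _).conj_mem _ (L_map (chi d).toMonoidHom hl) _,
      ?_⟩
    rw [e3]
    group
  have hlN : MulAut.conj l ∈ N := hmc (L_anti (l2.trans (le_max_left _ _)) hl)
  obtain ⟨φ0, hφ0⟩ : ∃ φ0, φ0 = MulAut.conj u ^ k * (p c * extO β) := ⟨_, rfl⟩
  have hφφ0 : MulAut.conj g * (p c * extO β) = MulAut.conj l * φ0 := by
    rw [hgl, hφ0, map_mul, map_zpow, mul_assoc]
  rw [hφφ0] at hφB ⊢
  refine mul_mem hlN ?_
  have hφ0B : φ0 ∈ cong _ (max mA m2) := by
    have h1 : φ0 = (MulAut.conj l)⁻¹ * (MulAut.conj l * φ0) := by group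
    rw [h1]
    exact mul_mem (inv_mem (conj_mem_cong hl)) hφB
  -- the automorphism of the old group
  obtain ⟨β', hβ'⟩ : ∃ β' : MulAut (FreeGroup X), β' = MulAut.conj (d ^ k) * β := ⟨_, rfl⟩
  have hβ'c : β' ∈ cong (FreeGroup X) mA := by
    rw [mem_cong]
    intro w
    have h1 := L_map retO (mem_cong.mp (cong_anti (le_max_left _ _) hφ0B) (FreeGroup.map some w))
    rw [hφ0, map_mul, map_inv, retO_some, MulAut.mul_apply, MulAut.mul_apply, extO_some,
      ← map_zpow, MulAut.conj_apply, map_mul, map_mul, hp.triv, retO_some, map_inv, map_zpow,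
      hru] at h1
    rw [hβ', MulAut.mul_apply, MulAut.conj_apply]
    exact h1
  have hβ'N : extO β' ∈ N := by
    refine hmX β' ?_ (cong_anti l1 hβ'c)
    rw [hβ']
    exact hinn _ _ hβ
  -- the pushed path
  obtain ⟨h, hh2, hh⟩ := hp.moves c
  have hh1 : p c (FreeGroup.of none) = h * FreeGroup.of none * h⁻¹ := by
    rcases hh with hh | hh
    · exact hh
    · exfalso
      have h1 := hm4 (deg3 (X := X)) (mem_cong.mp hφ4 (FreeGroup.of none))
      rw [MulAut.mul_apply, MulAut.mul_apply, extO_none, hh, MulAut.conj_apply, MonoidHom.mem_ker,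
        map_mul, map_mul, map_mul, map_mul, map_mul, map_inv, map_inv, map_inv, deg3_none] at h1
      have h2 : (Multiplicative.ofAdd (1 : ZMod 3))⁻¹ * (Multiplicative.ofAdd (1 : ZMod 3))⁻¹ =
          1 := by
        rw [← h1]
        have h3 : ∀ x y z : Multiplicative (ZMod 3), z⁻¹ * z⁻¹ = x * (y * z⁻¹ * y⁻¹) * x⁻¹ * z⁻¹ := by
          intro x y z
          rw [mul_comm x, mul_inv_cancel_right, mul_comm y, mul_inv_cancel_right]
        exact h3 _ _ _
      revert h2; decide
  have hpN : p (d ^ k * c⁻¹) ∈ N := by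
    have e1 := mem_cong.mp (cong_anti (le_max_right _ _) hφ0B) (FreeGroup.of none)
    rw [hφ0, MulAut.mul_apply, MulAut.mul_apply, extO_none, hh1, ← map_zpow,
      MulAut.conj_apply] at e1
    have e2 : (u ^ k * h) * FreeGroup.of none * (u ^ k * h)⁻¹ * (FreeGroup.of none)⁻¹ ∈
        L (FreeGroup (Option X)) m2 := by
      have e3 : (u ^ k * h) * FreeGroup.of none * (u ^ k * h)⁻¹ * (FreeGroup.of none)⁻¹ =
        u ^ k * (h * FreeGroup.of none * h⁻¹) * (u ^ k)⁻¹ * (FreeGroup.of none)⁻¹ := by group
      rw [e3]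
      exact e1
    obtain ⟨i, l', hl', hgl'⟩ := mem_fac_none (hm2 _ _ (of_mem_fac (Set.mem_singleton none)) e2)
    have e4 := congrArg retO hgl'
    rw [map_mul, map_mul, map_zpow, map_zpow, hru, hh2, retO_none, one_zpow, one_mul] at e4
    have e5 : d ^ k * c⁻¹ ∈ L (FreeGroup X) mA := by
      rw [e4]
      exact L_map retO hl'
    have e6 : L (FreeGroup X) mA ≤ N.comap p := by
      refine L_le_of_index_le _ _ ?_ ?_
      · exact (comap_finiteIndex p N hN).index_ne_zero
      · exact (index_comap_le p N hN0).trans l3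
    exact e6 e5
  -- assembly
  have hcomm : Commute (MulAut.conj u) (p d) := by
    change MulAut.conj u * p d = p d * MulAut.conj u
    ext1 w
    rw [MulAut.mul_apply, MulAut.mul_apply, MulAut.conj_apply, MulAut.conj_apply, map_mul, map_mul,
      map_inv, hpu]
  have hfull : MulAut.conj u * p d = extO (MulAut.conj d) := by
    rw [hp.full, ← hu, mul_inv_cancel_left]
  have hpc : p c = (p (d ^ k * c⁻¹))⁻¹ * p d ^ k := by
    rw [← map_inv, ← map_zpow, ← map_mul]
    congr 1
    group
  have hfin : φ0 = (MulAut.conj u ^ k * (p (d ^ k * c⁻¹))⁻¹ * (MulAut.conj u ^ k)⁻¹) * extO β' := by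
    have h1 : extO β' = MulAut.conj u ^ k * p d ^ k * extO β := by
      rw [hβ', map_mul, map_zpow, map_zpow, ← hfull, hcomm.mul_zpow]
    rw [h1, hφ0, hpc]
    group
  rw [hfin]
  exact mul_mem (hNn.conj_mem _ (inv_mem hpN) _) hβ'N

end push

/-! ### Transport along bijections of bases -/

section transport

variable {X Y : Type} (e : X ≃ Y)

/-- The isomorphism of the extended groups. -/
def eO : FreeGroup (Option X) ≃* FreeGroup (Option Y) :=
  FreeGroup.freeGroupCongr (Equiv.optionCongr e)

theorem eO_some (w : FreeGroup X) :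
    eO e (FreeGroup.map some w) = FreeGroup.map some (FreeGroup.freeGroupCongr e w) := by
  change FreeGroup.map (Equiv.optionCongr e) (FreeGroup.map some w) =
    FreeGroup.map some (FreeGroup.map e w)
  rw [FreeGroup.map.comp, FreeGroup.map.comp]
  rfl

theorem eO_none : eO e (FreeGroup.of none) = FreeGroup.of none := rfl

theorem eO_symm_some (w : FreeGroup Y) :
    (eO e).symm (FreeGroup.map some w) =
      FreeGroup.map some ((FreeGroup.freeGroupCongr e).symm w) := by
  rw [MulEquiv.symm_apply_eq, eO_some, MulEquiv.apply_symm_apply]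

theorem eO_symm_none : (eO e).symm (FreeGroup.of none) = FreeGroup.of none := by
  rw [MulEquiv.symm_apply_eq, eO_none]

theorem retO_eO (w : FreeGroup (Option X)) :
    retO (eO e w) = FreeGroup.freeGroupCongr e (retO w) := by
  have h : (retO (X := Y)).comp (eO e).toMonoidHom =
      (FreeGroup.freeGroupCongr e).toMonoidHom.comp (retO (X := X)) := by
    apply opt_hom_ext
    · intro w
      change retO (eO e (FreeGroup.map some w)) =
        FreeGroup.freeGroupCongr e (retO (FreeGroup.map some w))
      rw [eO_some, retO_some, retO_some]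
    · change retO (eO e (FreeGroup.of none)) = FreeGroup.freeGroupCongr e (retO (FreeGroup.of none))
      rw [eO_none, retO_none, retO_none, map_one]
  exact DFunLike.congr_fun h w

theorem retO_eO_symm (w : FreeGroup (Option Y)) :
    retO ((eO e).symm w) = (FreeGroup.freeGroupCongr e).symm (retO w) := by
  rw [MulEquiv.eq_symm_apply, ← retO_eO, MulEquiv.apply_symm_apply]

theorem extO_congr (β : MulAut (FreeGroup X)) :
    extO (MulAut.congr (FreeGroup.freeGroupCongr e) β) = MulAut.congr (eO e) (extO β) := by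
  apply opt_aut_ext
  · intro w
    rw [extO_some]
    change _ = eO e (extO β ((eO e).symm (FreeGroup.map some w)))
    rw [eO_symm_some, extO_some, eO_some]
    rfl
  · rw [extO_none]
    change _ = eO e (extO β ((eO e).symm (FreeGroup.of none)))
    rw [eO_symm_none, extO_none, eO_none]

theorem isPush_congr {d : FreeGroup X} {p : FreeGroup X →* MulAut (FreeGroup (Option X))}
    (hp : IsPush d p) :
    IsPush (FreeGroup.freeGroupCongr e d)
      ((MulAut.congr (eO e)).toMonoidHom.comp
        (p.comp (FreeGroup.freeGroupCongr e).symm.toMonoidHom)) where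
  triv c w := by
    change retO (eO e (p ((FreeGroup.freeGroupCongr e).symm c) ((eO e).symm w))) = _
    rw [retO_eO, hp.triv, retO_eO_symm, MulEquiv.apply_symm_apply]
  moves c := by
    obtain ⟨h, h2, h1⟩ := hp.moves ((FreeGroup.freeGroupCongr e).symm c)
    refine ⟨eO e h, ?_, ?_⟩
    · rw [retO_eO, h2, map_inv, MulEquiv.apply_symm_apply]
    · rcases h1 with h1 | h1
      · left
        change eO e (p ((FreeGroup.freeGroupCongr e).symm c) ((eO e).symm (FreeGroup.of none))) = _
        rw [eO_symm_none, h1, map_mul, map_mul, map_inv, eO_none]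
      · right
        change eO e (p ((FreeGroup.freeGroupCongr e).symm c) ((eO e).symm (FreeGroup.of none))) = _
        rw [eO_symm_none, h1, map_mul, map_mul, map_inv, map_inv, eO_none]
  fixes c := by
    change eO e (p ((FreeGroup.freeGroupCongr e).symm c) ((eO e).symm
      (FreeGroup.map some (FreeGroup.freeGroupCongr e d) * FreeGroup.of none))) = _
    rw [map_mul (eO e).symm, eO_symm_some, eO_symm_none, MulEquiv.symm_apply_apply, hp.fixes,
      map_mul, eO_some, eO_none]
  full := by
    change MulAut.congr (eO e) (p ((FreeGroup.freeGroupCongr e).symm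
      (FreeGroup.freeGroupCongr e d))) = _
    rw [MulEquiv.symm_apply_apply, hp.full, map_mul, map_inv]
    have h1 : MulAut.congr (FreeGroup.freeGroupCongr e) (MulAut.conj d) =
        MulAut.conj (FreeGroup.freeGroupCongr e d) := by
      ext1 w
      change FreeGroup.freeGroupCongr e (d * (FreeGroup.freeGroupCongr e).symm w * d⁻¹) = _
      rw [map_mul, map_mul, map_inv, MulEquiv.apply_symm_apply]
      rfl
    have h2 : MulAut.congr (eO e) (MulAut.conj (FreeGroup.map some d * FreeGroup.of none)) =
        MulAut.conj (FreeGroup.map some (FreeGroup.freeGroupCongr e d) * FreeGroup.of none) := by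
      ext1 w
      change eO e ((FreeGroup.map some d * FreeGroup.of none) * (eO e).symm w *
        (FreeGroup.map some d * FreeGroup.of none)⁻¹) = _
      rw [map_mul, map_mul, map_inv, MulEquiv.apply_symm_apply, map_mul, eO_some, eO_none]
      rfl
    rw [h2, ← h1, extO_congr]

end transport

end Pool.Agent.CSPBir
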