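import Mathlib
import Pool.Agent.CSPBir.Push

set_option autoImplicit false

/-! Point pushing exists for the boundary words of all compact surfaces with one distinguished
boundary component: products, on disjoint letters, of words `x` (further boundary component),
`[a, b]` (handle) and `x ^ 2` (crosscap). -/

namespace Pool.Agent.CSPBir

open Pool.Agent.CSPHier

section gen

variable {X : Type}

/-- The elements for which the first three conditions of `IsPush` hold. -/
def pushSub (d : FreeGroup X) (p : FreeGroup X →* MulAut (FreeGroup (Option X))) :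
    Subgroup (FreeGroup X) where
  carrier := {c | (∀ w : FreeGroup (Option X), retO (p c w) = retO w) ∧
    (∃ h : FreeGroup (Option X), retO h = c⁻¹ ∧
      (p c (FreeGroup.of none) = h * FreeGroup.of none * h⁻¹ ∨
        p c (FreeGroup.of none) = h * (FreeGroup.of none)⁻¹ * h⁻¹)) ∧
    p c (FreeGroup.map some d * FreeGroup.of none) = FreeGroup.map some d * FreeGroup.of none}
  one_mem' := by
    refine ⟨fun w => by rw [map_one]; rfl, ⟨1, by simp, Or.inl (by rw [map_one]; simp)⟩, ?_⟩
    rw [map_one]; rfl
  mul_mem' := by
    rintro c c' ⟨h1, ⟨h, h2, h3⟩, h4⟩ ⟨h1', ⟨h', h2', h3'⟩, h4'⟩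
    refine ⟨?_, ⟨p c h' * h, ?_, ?_⟩, ?_⟩
    · intro w
      rw [map_mul, MulAut.mul_apply, h1, h1']
    · rw [map_mul, h1, h2', h2, mul_inv_rev]
    · rw [map_mul, MulAut.mul_apply]
      rcases h3' with h3' | h3' <;> rcases h3 with h3 | h3
      · left
        rw [h3', map_mul, map_mul, map_inv, h3]
        group
      · right
        rw [h3', map_mul, map_mul, map_inv, h3]
        group
      · right
        rw [h3', map_mul, map_mul, map_inv, map_inv, h3]
        group
      · left
        rw [h3', map_mul, map_mul, map_inv, map_inv, h3]
        group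
    · rw [map_mul p, MulAut.mul_apply, h4', h4]
  inv_mem' := by
    rintro c ⟨h1, ⟨h, h2, h3⟩, h4⟩
    have h1' : ∀ w, retO (p c⁻¹ w) = retO w := by
      intro w
      rw [← h1 (p c⁻¹ w), map_inv, MulAut.apply_inv_self]
    refine ⟨h1', ⟨(p c⁻¹ h)⁻¹, ?_, ?_⟩, ?_⟩
    · rw [map_inv, h1', h2]
    · rcases h3 with h3 | h3
      · left
        have h5 := congrArg (p c⁻¹) h3
        have h6 : p c⁻¹ (p c (FreeGroup.of none)) = FreeGroup.of none := by
          rw [map_inv, MulAut.inv_apply_self]
        rw [h6, map_mul, map_mul, map_inv (p c⁻¹)] at h5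
        rw [inv_inv]
        obtain ⟨y, hy⟩ : ∃ y, y = p c⁻¹ (FreeGroup.of none) := ⟨_, rfl⟩
        rw [← hy] at h5 ⊢
        rw [h5]
        group
      · right
        have h5 := congrArg (p c⁻¹) h3
        have h6 : p c⁻¹ (p c (FreeGroup.of none)) = FreeGroup.of none := by
          rw [map_inv, MulAut.inv_apply_self]
        rw [h6, map_mul, map_mul, map_inv (p c⁻¹), map_inv (p c⁻¹)] at h5
        rw [inv_inv]
        obtain ⟨y, hy⟩ : ∃ y, y = p c⁻¹ (FreeGroup.of none) := ⟨_, rfl⟩
        rw [← hy] at h5 ⊢
        rw [h5]
        group
    · have h5 := congrArg (p c⁻¹) h4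
      have h6 : p c⁻¹ (p c (FreeGroup.map some d * FreeGroup.of none)) =
          FreeGroup.map some d * FreeGroup.of none := by
        rw [map_inv, MulAut.inv_apply_self]
      rw [h6] at h5
      exact h5.symm

theorem isPush_of_sub {d : FreeGroup X} {p : FreeGroup X →* MulAut (FreeGroup (Option X))}
    (h : ∀ x, FreeGroup.of x ∈ pushSub d p)
    (hfull : p d = (MulAut.conj (FreeGroup.map some d * FreeGroup.of none))⁻¹ *
      extO (MulAut.conj d)) : IsPush d p := by
  have h1 : ∀ c, c ∈ pushSub d p := by
    intro c
    induction c using FreeGroup.induction_on with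
    | C1 => exact one_mem _
    | of x => exact h x
    | inv_of x hx => exact inv_mem hx
    | mul x y hx hy => exact mul_mem hx hy
  exact ⟨fun c => (h1 c).1, fun c => (h1 c).2.1, fun c => (h1 c).2.2, hfull⟩

end gen

/-! ### The building blocks -/

/-- The disc: `d = 1`. -/
theorem isPush_disc : IsPush (X := Empty) 1 1 := by
  have hcomm : ∀ a b : FreeGroup (Option Empty), a * b = b * a := by
    have h : ∀ a : FreeGroup (Option Empty), ∃ k : ℤ, a = FreeGroup.of none ^ k := by
      intro a
      induction a using FreeGroup.induction_on with
      | C1 => exact ⟨0, by simp⟩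
      | of x =>
        rcases x with _ | x
        · exact ⟨1, by simp⟩
        · exact x.elim
      | inv_of x hx =>
        obtain ⟨k, hk⟩ := hx
        exact ⟨-k, by rw [hk, zpow_neg]⟩
      | mul x y hx hy =>
        obtain ⟨k, hk⟩ := hx
        obtain ⟨l, hl⟩ := hy
        exact ⟨k + l, by rw [hk, hl, zpow_add]⟩
    intro a b
    obtain ⟨k, rfl⟩ := h a
    obtain ⟨l, rfl⟩ := h b
    rw [← zpow_add, ← zpow_add, add_comm]
  refine isPush_of_sub (fun x => x.elim) ?_
  ext1 w
  rw [MonoidHom.one_apply, MulAut.one_apply, map_one, map_one, map_one, mul_one, one_mul,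
    ← map_inv, MulAut.conj_apply, hcomm _ w, mul_assoc, mul_inv_cancel, mul_one]

theorem unit_comm (a b : FreeGroup Unit) : a * b = b * a := by
  have h : ∀ a : FreeGroup Unit, ∃ k : ℤ, a = FreeGroup.of () ^ k := by
    intro a
    induction a using FreeGroup.induction_on with
    | C1 => exact ⟨0, by simp⟩
    | of x => exact ⟨1, by simp⟩
    | inv_of x hx => exact ⟨-1, by simp⟩
    | mul x y hx hy =>
      obtain ⟨k, hk⟩ := hx
      obtain ⟨l, hl⟩ := hy
      exact ⟨k + l, by rw [hk, hl, zpow_add]⟩
  obtain ⟨k, rfl⟩ := h a
  obtain ⟨l, rfl⟩ := h b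
  rw [← zpow_add, ← zpow_add, add_comm]

theorem unit_conj (a : FreeGroup Unit) : MulAut.conj a = 1 := by
  ext1 w
  rw [MulAut.conj_apply, unit_comm, inv_mul_cancel_left, MulAut.one_apply]

/-- The annulus: `d = x`. -/
theorem isPush_hole : ∃ p, IsPush (X := Unit) (FreeGroup.of ()) p := by
  have hcomm := unit_comm
  have hc : MulAut.conj (FreeGroup.of ()) = 1 := unit_conj _
  refine ⟨FreeGroup.lift fun _ =>
    (MulAut.conj (FreeGroup.map some (FreeGroup.of ()) * FreeGroup.of none))⁻¹, ?_⟩
  refine isPush_of_sub ?_ ?_
  · rintro ⟨⟩
    refine ⟨?_, ⟨(FreeGroup.map some (FreeGroup.of ()) * FreeGroup.of none)⁻¹, ?_, ?_⟩, ?_⟩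
    · intro w
      rw [FreeGroup.lift_apply_of, ← map_inv, MulAut.conj_apply, map_mul, map_mul, hcomm _ (retO w),
        mul_assoc, ← map_mul, mul_inv_cancel, map_one, mul_one]
    · rw [map_inv, map_mul, retO_some, retO_none, mul_one]
    · left
      rw [FreeGroup.lift_apply_of, ← map_inv, MulAut.conj_apply]
    · rw [FreeGroup.lift_apply_of, ← map_inv, MulAut.conj_apply]
      group
  · rw [FreeGroup.lift_apply_of, hc, map_one, mul_one]

/-- An automorphism of a free group given by the images of the generators and by those of the
inverse. -/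
def mkAut {Z : Type} (f g : Z → FreeGroup Z) (h1 : ∀ z, FreeGroup.lift f (g z) = FreeGroup.of z)
    (h2 : ∀ z, FreeGroup.lift g (f z) = FreeGroup.of z) : MulAut (FreeGroup Z) :=
  MonoidHom.toMulEquiv (FreeGroup.lift f) (FreeGroup.lift g)
    (by ext z; simp [h2]) (by ext z; simp [h1])

theorem mkAut_of {Z : Type} (f g : Z → FreeGroup Z)
    (h1 : ∀ z, FreeGroup.lift f (g z) = FreeGroup.of z)
    (h2 : ∀ z, FreeGroup.lift g (f z) = FreeGroup.of z) (z : Z) :
    mkAut f g h1 h2 (FreeGroup.of z) = f z := by
  change FreeGroup.lift f (FreeGroup.of z) = _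
  rw [FreeGroup.lift_apply_of]

theorem mkAut_inv_of {Z : Type} (f g : Z → FreeGroup Z)
    (h1 : ∀ z, FreeGroup.lift f (g z) = FreeGroup.of z)
    (h2 : ∀ z, FreeGroup.lift g (f z) = FreeGroup.of z) (z : Z) :
    (mkAut f g h1 h2)⁻¹ (FreeGroup.of z) = g z := by
  change FreeGroup.lift g (FreeGroup.of z) = _
  rw [FreeGroup.lift_apply_of]

/-- The push around the core of the Möbius band. -/
def capAut : MulAut (FreeGroup (Option Unit)) :=
  mkAut
    (fun z => z.elim
      ((FreeGroup.of none)⁻¹ * (FreeGroup.of (some ()))⁻¹ * (FreeGroup.of none)⁻¹ *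
        FreeGroup.of (some ()) * FreeGroup.of none)
      (fun _ => FreeGroup.of (some ()) * FreeGroup.of none))
    (fun z => z.elim
      (FreeGroup.of (some ()) * (FreeGroup.of none)⁻¹ * (FreeGroup.of (some ()))⁻¹)
      (fun _ => FreeGroup.of (some ()) * FreeGroup.of (some ()) * FreeGroup.of none *
        (FreeGroup.of (some ()))⁻¹))
    (by rintro (_ | ⟨⟩) <;> simp <;> group)
    (by rintro (_ | ⟨⟩) <;> simp <;> group)

theorem capAut_none : capAut (FreeGroup.of none) =
    (FreeGroup.of none)⁻¹ * (FreeGroup.of (some ()))⁻¹ * (FreeGroup.of none)⁻¹ *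
        FreeGroup.of (some ()) * FreeGroup.of none := mkAut_of _ _ _ _ _

theorem capAut_some : capAut (FreeGroup.of (some ())) =
    FreeGroup.of (some ()) * FreeGroup.of none := mkAut_of _ _ _ _ _

/-- The Möbius band: `d = x x`. -/
theorem isPush_cap : ∃ p, IsPush (X := Unit) (FreeGroup.of () * FreeGroup.of ()) p := by
  have hc : MulAut.conj (FreeGroup.of () * FreeGroup.of ()) = 1 := unit_conj _
  refine ⟨FreeGroup.lift fun _ => capAut, ?_⟩
  refine isPush_of_sub ?_ ?_
  · rintro ⟨⟩
    refine ⟨?_, ⟨(FreeGroup.of (some ()) * FreeGroup.of none)⁻¹, ?_, ?_⟩, ?_⟩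
    · have h : (retO (X := Unit)).comp capAut.toMonoidHom = retO := by
        ext z
        rcases z with _ | ⟨⟩
        · change retO (capAut (FreeGroup.of none)) = _
          rw [capAut_none]
          simp [retO]
        · change retO (capAut (FreeGroup.of (some ()))) = _
          rw [capAut_some]
          simp [retO]
      intro w
      rw [FreeGroup.lift_apply_of]
      exact DFunLike.congr_fun h w
    · simp [retO]
    · right
      rw [FreeGroup.lift_apply_of, capAut_none]
      group
    · rw [FreeGroup.lift_apply_of, map_mul, map_mul, FreeGroup.map.of, map_mul, capAut_none,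
        capAut_some]
      group
  · rw [map_mul, FreeGroup.lift_apply_of, hc, map_one, mul_one]
    apply opt_aut_ext
    · intro w
      have h : ((capAut * capAut : MulAut _).toMonoidHom).comp (FreeGroup.map some) =
          (((MulAut.conj (FreeGroup.map some (FreeGroup.of () * FreeGroup.of ()) *
            FreeGroup.of none))⁻¹ : MulAut (FreeGroup (Option Unit))).toMonoidHom).comp
            (FreeGroup.map some) := by
        ext z
        rcases z with ⟨⟩
        change capAut (capAut (FreeGroup.map some (FreeGroup.of ()))) =
          (MulAut.conj (FreeGroup.map some (FreeGroup.of () * FreeGroup.of ()) *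
            FreeGroup.of none))⁻¹ (FreeGroup.map some (FreeGroup.of ()))
        rw [FreeGroup.map.of, capAut_some, map_mul, capAut_some, capAut_none, ← map_inv,
          MulAut.conj_apply, map_mul, FreeGroup.map.of]
        group
      exact DFunLike.congr_fun h w
    · rw [MulAut.mul_apply, capAut_none, map_mul, map_mul, map_mul, map_mul, map_inv, map_inv,
        capAut_some, capAut_none, ← map_inv, MulAut.conj_apply, map_mul, FreeGroup.map.of]
      simp [mul_assoc]

/-- The push around the first generator of the handle. -/
def handA : MulAut (FreeGroup (Option Bool)) :=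
  mkAut
    (fun z => z.elim
      ((FreeGroup.of none)⁻¹ * (FreeGroup.of (some true))⁻¹ * FreeGroup.of none *
        FreeGroup.of (some true) * FreeGroup.of none)
      (fun y => cond y
        ((FreeGroup.of none)⁻¹ * FreeGroup.of (some true) * FreeGroup.of none)
        ((FreeGroup.of none)⁻¹ * (FreeGroup.of (some true))⁻¹ * FreeGroup.of none *
          FreeGroup.of (some true) * FreeGroup.of (some false) * FreeGroup.of none)))
    (fun z => z.elim
      (FreeGroup.of (some true) * FreeGroup.of none * (FreeGroup.of (some true))⁻¹)
      (fun y => cond y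
        (FreeGroup.of (some true) * FreeGroup.of none * FreeGroup.of (some true) *
          (FreeGroup.of none)⁻¹ * (FreeGroup.of (some true))⁻¹)
        (FreeGroup.of (some true) * FreeGroup.of none * (FreeGroup.of (some true))⁻¹ *
          (FreeGroup.of none)⁻¹ * FreeGroup.of (some false) * FreeGroup.of (some true) *
          (FreeGroup.of none)⁻¹ * (FreeGroup.of (some true))⁻¹)))
    (by rintro (_ | _ | _) <;> simp <;> group)
    (by rintro (_ | _ | _) <;> simp <;> group)

theorem handA_none : handA (FreeGroup.of none) =
    (FreeGroup.of none)⁻¹ * (FreeGroup.of (some true))⁻¹ * FreeGroup.of none *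
        FreeGroup.of (some true) * FreeGroup.of none := mkAut_of _ _ _ _ _

theorem handA_true : handA (FreeGroup.of (some true)) =
    (FreeGroup.of none)⁻¹ * FreeGroup.of (some true) * FreeGroup.of none := mkAut_of _ _ _ _ _

theorem handA_false : handA (FreeGroup.of (some false)) =
    (FreeGroup.of none)⁻¹ * (FreeGroup.of (some true))⁻¹ * FreeGroup.of none *
          FreeGroup.of (some true) * FreeGroup.of (some false) * FreeGroup.of none :=
  mkAut_of _ _ _ _ _

/-- The push around the inverse of the second generator of the handle. -/
def handB : MulAut (FreeGroup (Option Bool)) :=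
  mkAut
    (fun z => z.elim
      ((FreeGroup.of none)⁻¹ * FreeGroup.of (some false) * FreeGroup.of none *
        (FreeGroup.of (some false))⁻¹ * FreeGroup.of none)
      (fun y => cond y
        (FreeGroup.of (some true) * FreeGroup.of none)
        ((FreeGroup.of none)⁻¹ * FreeGroup.of (some false) * FreeGroup.of none)))
    (fun z => z.elim
      ((FreeGroup.of (some false))⁻¹ * FreeGroup.of none * FreeGroup.of (some false))
      (fun y => cond y
        (FreeGroup.of (some true) * (FreeGroup.of (some false))⁻¹ * (FreeGroup.of none)⁻¹ *
          FreeGroup.of (some false))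
        ((FreeGroup.of (some false))⁻¹ * FreeGroup.of none * FreeGroup.of (some false) *
          (FreeGroup.of none)⁻¹ * FreeGroup.of (some false))))
    (by rintro (_ | _ | _) <;> simp <;> group)
    (by rintro (_ | _ | _) <;> simp <;> group)

theorem handB_none : handB (FreeGroup.of none) =
    (FreeGroup.of none)⁻¹ * FreeGroup.of (some false) * FreeGroup.of none *
        (FreeGroup.of (some false))⁻¹ * FreeGroup.of none := mkAut_of _ _ _ _ _

theorem handB_true : handB (FreeGroup.of (some true)) =
    FreeGroup.of (some true) * FreeGroup.of none := mkAut_of _ _ _ _ _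

theorem handB_false : handB (FreeGroup.of (some false)) =
    (FreeGroup.of none)⁻¹ * FreeGroup.of (some false) * FreeGroup.of none := mkAut_of _ _ _ _ _

theorem handA_inv_none : handA⁻¹ (FreeGroup.of none) =
    FreeGroup.of (some true) * FreeGroup.of none * (FreeGroup.of (some true))⁻¹ :=
  mkAut_inv_of _ _ _ _ _

theorem handA_inv_true : handA⁻¹ (FreeGroup.of (some true)) =
    FreeGroup.of (some true) * FreeGroup.of none * FreeGroup.of (some true) *
          (FreeGroup.of none)⁻¹ * (FreeGroup.of (some true))⁻¹ := mkAut_inv_of _ _ _ _ _

theorem handA_inv_false : handA⁻¹ (FreeGroup.of (some false)) =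
    FreeGroup.of (some true) * FreeGroup.of none * (FreeGroup.of (some true))⁻¹ *
          (FreeGroup.of none)⁻¹ * FreeGroup.of (some false) * FreeGroup.of (some true) *
          (FreeGroup.of none)⁻¹ * (FreeGroup.of (some true))⁻¹ := mkAut_inv_of _ _ _ _ _

theorem handB_inv_none : handB⁻¹ (FreeGroup.of none) =
    (FreeGroup.of (some false))⁻¹ * FreeGroup.of none * FreeGroup.of (some false) :=
  mkAut_inv_of _ _ _ _ _

theorem handB_inv_true : handB⁻¹ (FreeGroup.of (some true)) =
    FreeGroup.of (some true) * (FreeGroup.of (some false))⁻¹ * (FreeGroup.of none)⁻¹ *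
          FreeGroup.of (some false) := mkAut_inv_of _ _ _ _ _

theorem handB_inv_false : handB⁻¹ (FreeGroup.of (some false)) =
    (FreeGroup.of (some false))⁻¹ * FreeGroup.of none * FreeGroup.of (some false) *
          (FreeGroup.of none)⁻¹ * FreeGroup.of (some false) := mkAut_inv_of _ _ _ _ _

/-- The push homomorphism of the handle. -/
def handP : FreeGroup Bool →* MulAut (FreeGroup (Option Bool)) :=
  FreeGroup.lift fun y => cond y handA handB⁻¹

theorem handP_true : handP (FreeGroup.of true) = handA := by simp [handP]

theorem handP_false : handP (FreeGroup.of false) = handB⁻¹ := by simp [handP]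

/-- The boundary word of the handle. -/
def handD : FreeGroup Bool :=
  FreeGroup.of true * FreeGroup.of false * (FreeGroup.of true)⁻¹ * (FreeGroup.of false)⁻¹

/-- The handle: `d = [a, b]`. -/
theorem isPush_handle : IsPush handD handP := by
  have hd : FreeGroup.map some handD * FreeGroup.of (none : Option Bool) =
      FreeGroup.of (some true) * FreeGroup.of (some false) * (FreeGroup.of (some true))⁻¹ *
        (FreeGroup.of (some false))⁻¹ * FreeGroup.of none := by
    simp [handD]
  refine isPush_of_sub ?_ ?_
  · rintro (_ | _)
    · -- the second generator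
      have h : FreeGroup.of false ∈ pushSub handD handP ↔
          (FreeGroup.of false)⁻¹ ∈ pushSub handD handP := (inv_mem_iff).symm
      rw [h]
      refine ⟨?_, ⟨(FreeGroup.of none)⁻¹ * FreeGroup.of (some false), ?_, ?_⟩, ?_⟩
      · intro w
        rw [map_inv, handP_false, inv_inv]
        have h : (retO (X := Bool)).comp handB.toMonoidHom = retO := by
          ext z
          rcases z with _ | _ | _
          · change retO (handB (FreeGroup.of none)) = _
            rw [handB_none]
            simp [retO]
          · change retO (handB (FreeGroup.of (some false))) = _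
            rw [handB_false]
            simp [retO]
          · change retO (handB (FreeGroup.of (some true))) = _
            rw [handB_true]
            simp [retO]
        exact DFunLike.congr_fun h w
      · simp [retO]
      · left
        rw [map_inv, handP_false, inv_inv, handB_none]
        group
      · rw [map_inv, handP_false, inv_inv, hd]
        simp only [map_mul, map_inv, handB_none, handB_true, handB_false]
        group
    · refine ⟨?_, ⟨(FreeGroup.of none)⁻¹ * (FreeGroup.of (some true))⁻¹, ?_, ?_⟩, ?_⟩
      · intro w
        rw [handP_true]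
        have h : (retO (X := Bool)).comp handA.toMonoidHom = retO := by
          ext z
          rcases z with _ | _ | _
          · change retO (handA (FreeGroup.of none)) = _
            rw [handA_none]
            simp [retO]
          · change retO (handA (FreeGroup.of (some false))) = _
            rw [handA_false]
            simp [retO]
          · change retO (handA (FreeGroup.of (some true))) = _
            rw [handA_true]
            simp [retO]
        exact DFunLike.congr_fun h w
      · simp [retO]
      · left
        rw [handP_true, handA_none]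
        group
      · rw [handP_true, hd]
        simp only [map_mul, map_inv, handA_none, handA_true, handA_false]
        group
  · have h1 : handP handD = handA * handB⁻¹ * handA⁻¹ * handB := by
      rw [handD, map_mul, map_mul, map_mul, map_inv, map_inv, handP_true, handP_false, inv_inv]
    rw [h1]
    have hsome : ∀ y, extO (MulAut.conj handD) (FreeGroup.of (some y)) =
        FreeGroup.map some (MulAut.conj handD (FreeGroup.of y)) := by
      intro y
      rw [← extO_some, FreeGroup.map.of]
    have hΦ : ∀ w : FreeGroup (Option Bool), (MulAut.conj (FreeGroup.map some handD * FreeGroup.of none))⁻¹ w =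
        (FreeGroup.map some handD * FreeGroup.of none)⁻¹ * w *
          (FreeGroup.map some handD * FreeGroup.of none) := by
      intro w
      rw [← map_inv, MulAut.conj_apply, inv_inv]
    have hd' : FreeGroup.map (some : Bool → Option Bool) handD =
      FreeGroup.of (some true) * FreeGroup.of (some false) * (FreeGroup.of (some true))⁻¹ *
        (FreeGroup.of (some false))⁻¹ := by
      simp [handD]
    apply MulEquiv.toMonoidHom_injective
    ext1 z
    change (handA * handB⁻¹ * handA⁻¹ * handB) (FreeGroup.of z) =
      ((MulAut.conj (FreeGroup.map some handD * FreeGroup.of none))⁻¹ *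
          extO (MulAut.conj handD) : MulAut (FreeGroup (Option Bool))) (FreeGroup.of z)
    rcases z with _ | _ | _
    · rw [MulAut.mul_apply _ _ (extO _), extO_none, hΦ, hd]
      simp only [MulAut.mul_apply, map_mul, map_inv, handA_none, handA_true, handA_false,
        handB_none, handB_true, handB_false, handA_inv_none, handA_inv_true, handA_inv_false,
        handB_inv_none, handB_inv_true, handB_inv_false]
      simp [mul_assoc]
    · rw [MulAut.mul_apply _ _ (extO _), hsome, hΦ, MulAut.conj_apply, map_mul, map_mul, map_inv,
        hd', FreeGroup.map.of]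
      simp only [MulAut.mul_apply, map_mul, map_inv, handA_none, handA_true, handA_false,
        handB_none, handB_true, handB_false, handA_inv_none, handA_inv_true, handA_inv_false,
        handB_inv_none, handB_inv_true, handB_inv_false]
      simp [mul_assoc]
    · rw [MulAut.mul_apply _ _ (extO _), hsome, hΦ, MulAut.conj_apply, map_mul, map_mul, map_inv,
        hd', FreeGroup.map.of]
      simp only [MulAut.mul_apply, map_mul, map_inv, handA_none, handA_true, handA_false,
        handB_none, handB_true, handB_false, handA_inv_none, handA_inv_true, handA_inv_false,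
        handB_inv_none, handB_inv_true, handB_inv_false]
      simp [mul_assoc]

end Pool.Agent.CSPBir
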