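import Mathlib
import Pool.Agent.CSPBir.Examples

set_option autoImplicit false

/-! Point pushing for boundary connected sums. -/

namespace Pool.Agent.CSPBir

open Pool.Agent.CSPHier

section sums

variable {X Y : Type}

/-- bases -/
def eqR : X ⊕ Option Y ≃ Option (X ⊕ Y) where
  toFun := Sum.elim (fun x => some (Sum.inl x)) (fun o => o.elim none (fun y => some (Sum.inr y)))
  invFun := fun o => o.elim (Sum.inr none) (Sum.elim Sum.inl (fun y => Sum.inr (some y)))
  left_inv := by rintro (x | _ | y) <;> rfl
  right_inv := by rintro (_ | x | y) <;> rfl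

/-- bases -/
def eqL : Option X ⊕ Y ≃ Option (X ⊕ Y) where
  toFun := Sum.elim (fun o => o.elim none (fun x => some (Sum.inl x))) (fun y => some (Sum.inr y))
  invFun := fun o => o.elim (Sum.inl none) (Sum.elim (fun x => Sum.inl (some x)) Sum.inr)
  left_inv := by rintro ((_ | x) | y) <;> rfl
  right_inv := by rintro (_ | x | y) <;> rfl

/-- the left group -/
def iA (w : FreeGroup X) : FreeGroup (Option (X ⊕ Y)) :=
  FreeGroup.map some (FreeGroup.map Sum.inl w)

/-- the right group -/
def iB (w : FreeGroup Y) : FreeGroup (Option (X ⊕ Y)) :=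
  FreeGroup.map some (FreeGroup.map Sum.inr w)

/-- the right group with the point -/
def iR : FreeGroup (Option Y) →* FreeGroup (Option (X ⊕ Y)) :=
  (FreeGroup.freeGroupCongr eqR).toMonoidHom.comp (FreeGroup.map Sum.inr)

/-- the change of basis `t ↦ e t e⁻¹` -/
def tau (e : FreeGroup Y) : MulAut (FreeGroup (Option (X ⊕ Y))) :=
  loopAut 1 (FreeGroup.map Sum.inr e) (FreeGroup.map Sum.inr e)⁻¹

/-- the left group with the point -/
def iL (e : FreeGroup Y) : FreeGroup (Option X) →* FreeGroup (Option (X ⊕ Y)) :=
  (tau e).toMonoidHom.comp ((FreeGroup.freeGroupCongr eqL).toMonoidHom.comp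
    (FreeGroup.map Sum.inl))

theorem iR_some (w : FreeGroup Y) : iR (X := X) (FreeGroup.map some w) = iB w := by
  change FreeGroup.map eqR (FreeGroup.map Sum.inr (FreeGroup.map some w)) =
    FreeGroup.map some (FreeGroup.map Sum.inr w)
  rw [FreeGroup.map.comp, FreeGroup.map.comp, FreeGroup.map.comp]
  rfl

theorem iR_none : iR (X := X) (FreeGroup.of (none : Option Y)) = FreeGroup.of none := rfl

theorem iL_some (e : FreeGroup Y) (w : FreeGroup X) : iL e (FreeGroup.map some w) = iA w := by
  have h1 : FreeGroup.map eqL (FreeGroup.map Sum.inl (FreeGroup.map some w)) =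
      FreeGroup.map some (FreeGroup.map (Sum.inl : X → X ⊕ Y) w) := by
    rw [FreeGroup.map.comp, FreeGroup.map.comp, FreeGroup.map.comp]
    rfl
  change tau e (FreeGroup.map eqL (FreeGroup.map Sum.inl (FreeGroup.map some w))) = iA w
  rw [h1, tau, loopAut_some]
  rfl

theorem iL_none (e : FreeGroup Y) : iL (X := X) e (FreeGroup.of none) =
    iB e * FreeGroup.of none * (iB e)⁻¹ := by
  change tau e (FreeGroup.of none) = _
  rw [tau, loopAut_none, map_inv]
  rfl

/-- extension to the right group -/
def QQ : MulAut (FreeGroup (Option Y)) →* MulAut (FreeGroup (Option (X ⊕ Y))) :=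
  (MulAut.congr (FreeGroup.freeGroupCongr eqR)).toMonoidHom.comp
    (both.comp (MonoidHom.inr (MulAut (FreeGroup X)) _))

/-- extension to the left group -/
def PP (e : FreeGroup Y) : MulAut (FreeGroup (Option X)) →* MulAut (FreeGroup (Option (X ⊕ Y))) :=
  (MulAut.congr ((FreeGroup.freeGroupCongr eqL).trans (tau e))).toMonoidHom.comp
    (both.comp (MonoidHom.inl _ (MulAut (FreeGroup Y))))

theorem QQ_R (σ : MulAut (FreeGroup (Option Y))) (w : FreeGroup (Option Y)) :
    QQ (X := X) σ (iR w) = iR (σ w) := by
  change FreeGroup.freeGroupCongr eqR (both (1, σ) ((FreeGroup.freeGroupCongr eqR).symm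
    (FreeGroup.freeGroupCongr eqR (FreeGroup.map Sum.inr w)))) = _
  rw [MulEquiv.symm_apply_apply, both_inr]
  rfl

theorem QQ_A (σ : MulAut (FreeGroup (Option Y))) (w : FreeGroup X) :
    QQ σ (iA w) = iA w := by
  have h1 : iA (Y := Y) w = FreeGroup.freeGroupCongr eqR (FreeGroup.map Sum.inl w) := by
    change FreeGroup.map some (FreeGroup.map Sum.inl w) =
      FreeGroup.map eqR (FreeGroup.map Sum.inl w)
    rw [FreeGroup.map.comp, FreeGroup.map.comp]
    rfl
  rw [h1]
  change FreeGroup.freeGroupCongr eqR (both (1, σ) ((FreeGroup.freeGroupCongr eqR).symm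
    (FreeGroup.freeGroupCongr eqR (FreeGroup.map Sum.inl w)))) = _
  rw [MulEquiv.symm_apply_apply, both_inl]
  rfl

theorem PP_L (e : FreeGroup Y) (σ : MulAut (FreeGroup (Option X))) (w : FreeGroup (Option X)) :
    PP e σ (iL e w) = iL e (σ w) := by
  change ((FreeGroup.freeGroupCongr eqL).trans (tau e)) (both (σ, 1)
    (((FreeGroup.freeGroupCongr eqL).trans (tau e)).symm
    (((FreeGroup.freeGroupCongr eqL).trans (tau e)) (FreeGroup.map Sum.inl w)))) = _
  rw [MulEquiv.symm_apply_apply, both_inl]
  rfl

theorem PP_B (e : FreeGroup Y) (σ : MulAut (FreeGroup (Option X))) (w : FreeGroup Y) :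
    PP e σ (iB w) = iB w := by
  have h1 : iB (X := X) w =
      ((FreeGroup.freeGroupCongr eqL).trans (tau e)) (FreeGroup.map Sum.inr w) := by
    change _ = tau e (FreeGroup.map eqL (FreeGroup.map Sum.inr w))
    have h2 : FreeGroup.map eqL (FreeGroup.map Sum.inr w) =
        FreeGroup.map some (FreeGroup.map (Sum.inr : Y → X ⊕ Y) w) := by
      rw [FreeGroup.map.comp, FreeGroup.map.comp]
      rfl
    rw [h2, tau, loopAut_some]
    rfl
  rw [h1]
  change ((FreeGroup.freeGroupCongr eqL).trans (tau e)) (both (σ, 1)
    (((FreeGroup.freeGroupCongr eqL).trans (tau e)).symm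
    (((FreeGroup.freeGroupCongr eqL).trans (tau e)) (FreeGroup.map Sum.inr w)))) = _
  rw [MulEquiv.symm_apply_apply, both_inr]
  rfl

theorem retO_iR (w : FreeGroup (Option Y)) :
    retO (iR (X := X) w) = FreeGroup.map Sum.inr (retO w) := by
  have h : (retO (X := X ⊕ Y)).comp iR = (FreeGroup.map Sum.inr).comp retO := by
    apply opt_hom_ext
    · intro w
      rw [MonoidHom.comp_apply, MonoidHom.comp_apply, iR_some, iB, retO_some, retO_some]
    · rw [MonoidHom.comp_apply, MonoidHom.comp_apply, iR_none, retO_none, retO_none, map_one]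
  exact DFunLike.congr_fun h w

theorem retO_iL (e : FreeGroup Y) (w : FreeGroup (Option X)) :
    retO (iL e w) = FreeGroup.map Sum.inl (retO w) := by
  have h : (retO (X := X ⊕ Y)).comp (iL e) = (FreeGroup.map Sum.inl).comp retO := by
    apply opt_hom_ext
    · intro w
      rw [MonoidHom.comp_apply, MonoidHom.comp_apply, iL_some, iA, retO_some, retO_some]
    · rw [MonoidHom.comp_apply, MonoidHom.comp_apply, iL_none, map_mul, map_mul, map_inv,
        retO_none, retO_none, map_one, mul_one, mul_inv_cancel]
  exact DFunLike.congr_fun h w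

theorem three_ext {G : Type} [Group G] {f g : FreeGroup (Option (X ⊕ Y)) →* G}
    (h1 : ∀ w : FreeGroup X, f (iA w) = g (iA w)) (h2 : ∀ w : FreeGroup Y, f (iB w) = g (iB w))
    (h3 : f (FreeGroup.of none) = g (FreeGroup.of none)) : f = g := by
  apply opt_hom_ext
  · have h : f.comp (FreeGroup.map some) = g.comp (FreeGroup.map some) := sum_hom_ext h1 h2
    exact fun w => DFunLike.congr_fun h w
  · exact h3

theorem iA_mul (v w : FreeGroup X) : iA (Y := Y) (v * w) = iA v * iA w := by
  simp [iA]

theorem iA_inv (v : FreeGroup X) : iA (Y := Y) v⁻¹ = (iA v)⁻¹ := by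
  simp [iA]

theorem iB_mul (v w : FreeGroup Y) : iB (X := X) (v * w) = iB v * iB w := by
  simp [iB]

theorem iB_inv (v : FreeGroup Y) : iB (X := X) v⁻¹ = (iB v)⁻¹ := by
  simp [iB]

/-- the push homomorphism of the boundary connected sum -/
def rr (e : FreeGroup Y) (p : FreeGroup X →* MulAut (FreeGroup (Option X)))
    (q : FreeGroup Y →* MulAut (FreeGroup (Option Y))) :
    FreeGroup (X ⊕ Y) →* MulAut (FreeGroup (Option (X ⊕ Y))) :=
  FreeGroup.lift (Sum.elim (fun x => QQ (q e) * PP e (p (FreeGroup.of x)) * (QQ (q e))⁻¹)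
    (fun y => QQ (q (FreeGroup.of y))))

theorem rr_inr (e : FreeGroup Y) (p : FreeGroup X →* MulAut (FreeGroup (Option X)))
    (q : FreeGroup Y →* MulAut (FreeGroup (Option Y))) (b : FreeGroup Y) :
    rr e p q (FreeGroup.map Sum.inr b) = QQ (q b) := by
  have h : (rr e p q).comp (FreeGroup.map Sum.inr) = QQ.comp q := by
    ext1 y
    simp [rr]
  exact DFunLike.congr_fun h b

theorem rr_inl (e : FreeGroup Y) (p : FreeGroup X →* MulAut (FreeGroup (Option X)))
    (q : FreeGroup Y →* MulAut (FreeGroup (Option Y))) (c : FreeGroup X) :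
    rr e p q (FreeGroup.map Sum.inl c) = QQ (q e) * PP e (p c) * (QQ (q e))⁻¹ := by
  have h : (rr e p q).comp (FreeGroup.map Sum.inl) =
      (MulAut.conj (QQ (q e)) : MulAut _).toMonoidHom.comp ((PP e).comp p) := by
    ext1 y
    simp [rr]
  exact DFunLike.congr_fun h c

/-- **Boundary connected sum.** -/
theorem isPush_sum {d : FreeGroup X} {e : FreeGroup Y}
    {p : FreeGroup X →* MulAut (FreeGroup (Option X))}
    {q : FreeGroup Y →* MulAut (FreeGroup (Option Y))} (hp : IsPush d p) (hq : IsPush e q) :
    IsPush (FreeGroup.map Sum.inl d * FreeGroup.map Sum.inr e) (rr e p q) := by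
  have hB : ∀ b : FreeGroup Y, FreeGroup.map Sum.inr b ∈
      pushSub (FreeGroup.map Sum.inl d * FreeGroup.map Sum.inr e) (rr e p q) := by
    intro b
    refine ⟨?_, ?_, ?_⟩
    · rw [rr_inr]
      have h : (retO (X := X ⊕ Y)).comp (QQ (q b)).toMonoidHom = retO := by
        apply three_ext
        · intro w
          change retO (QQ (q b) (iA w)) = _
          rw [QQ_A]
        · intro w
          change retO (QQ (q b) (iB w)) = _
          rw [← iR_some, QQ_R, retO_iR, retO_iR, hq.triv]
        · change retO (QQ (q b) (FreeGroup.of none)) = _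
          rw [← iR_none, QQ_R, retO_iR, retO_iR, hq.triv]
      exact fun w => DFunLike.congr_fun h w
    · obtain ⟨h, h2, h1⟩ := hq.moves b
      refine ⟨iR h, ?_, ?_⟩
      · rw [retO_iR, h2, map_inv]
      · rw [rr_inr, ← iR_none (X := X), QQ_R]
        rcases h1 with h1 | h1
        · left
          rw [h1, map_mul, map_mul, map_inv]
        · right
          rw [h1, map_mul, map_mul, map_inv, map_inv]
    · have h1 : FreeGroup.map some (FreeGroup.map Sum.inl d * FreeGroup.map Sum.inr e) *
          FreeGroup.of none = iA d * iR (FreeGroup.map some e * FreeGroup.of none) := by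
        rw [map_mul, map_mul, iR_some, iR_none, mul_assoc]
        rfl
      rw [h1, rr_inr, map_mul, QQ_A, QQ_R, hq.fixes]
  have hL : ∀ c : FreeGroup X, rr e p q ((FreeGroup.map Sum.inr e)⁻¹ * FreeGroup.map Sum.inl c *
      FreeGroup.map Sum.inr e) = PP e (p c) := by
    intro c
    rw [map_mul, map_mul, map_inv, rr_inr, rr_inl]
    group
  have hA : ∀ c : FreeGroup X, (FreeGroup.map Sum.inr e)⁻¹ * FreeGroup.map Sum.inl c *
      FreeGroup.map Sum.inr e ∈
      pushSub (FreeGroup.map Sum.inl d * FreeGroup.map Sum.inr e) (rr e p q) := by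
    intro c
    refine ⟨?_, ?_, ?_⟩
    · rw [hL]
      have h : (retO (X := X ⊕ Y)).comp (PP e (p c)).toMonoidHom = retO := by
        have h0 : retO (PP e (p c) (iL e (FreeGroup.of none))) =
            retO (iL (X := X) e (FreeGroup.of none)) := by
          rw [PP_L, retO_iL, retO_iL, hp.triv]
        apply three_ext
        · intro w
          change retO (PP e (p c) (iA w)) = _
          rw [← iL_some e, PP_L, retO_iL, retO_iL, hp.triv]
        · intro w
          change retO (PP e (p c) (iB w)) = _
          rw [PP_B]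
        · change retO (PP e (p c) (FreeGroup.of none)) = _
          rw [iL_none, map_mul (PP e (p c)), map_mul (PP e (p c)), map_inv (PP e (p c)), PP_B] at h0
          simp only [map_mul, map_inv] at h0
          have h3 := mul_right_cancel h0
          exact mul_left_cancel h3
      exact fun w => DFunLike.congr_fun h w
    · obtain ⟨h, h2, h1⟩ := hp.moves c
      refine ⟨(iB e)⁻¹ * iL e h * iB e, ?_, ?_⟩
      · rw [map_mul, map_mul, map_inv, retO_iL, h2, iB, retO_some]
        simp only [map_inv]
        group
      · have h3 : (FreeGroup.of none : FreeGroup (Option (X ⊕ Y))) =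
            (iB e)⁻¹ * iL e (FreeGroup.of none) * iB e := by
          rw [iL_none]; group
        have h4 : PP e (p c) (FreeGroup.of none) =
            (iB e)⁻¹ * iL e (p c (FreeGroup.of none)) * iB e := by
          rw [h3, map_mul, map_mul, map_inv, PP_B, PP_L]
        rw [hL, h4]
        rcases h1 with h1 | h1
        · left
          rw [h1, map_mul, map_mul, map_inv, iL_none]
          group
        · right
          rw [h1, map_mul, map_mul, map_inv, map_inv, iL_none]
          group
    · have h1 : FreeGroup.map some (FreeGroup.map Sum.inl d * FreeGroup.map Sum.inr e) *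
          FreeGroup.of none = iL e (FreeGroup.map some d * FreeGroup.of none) * iB e := by
        rw [map_mul, map_mul, iL_some, iL_none, iA, iB]
        group
      rw [h1, hL, map_mul, PP_B, PP_L, hp.fixes]
  refine isPush_of_sub ?_ ?_
  · rintro (x | y)
    · have h1 := mul_mem (mul_mem (hB e) (hA (FreeGroup.of x))) (inv_mem (hB e))
      have h2 : FreeGroup.map Sum.inr e * ((FreeGroup.map Sum.inr e)⁻¹ *
          FreeGroup.map Sum.inl (FreeGroup.of x) * FreeGroup.map Sum.inr e) *
          (FreeGroup.map Sum.inr e)⁻¹ = FreeGroup.of (Sum.inl x : X ⊕ Y) := by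
        rw [FreeGroup.map.of]
        group
      rwa [h2] at h1
    · have h1 := hB (FreeGroup.of y)
      rwa [FreeGroup.map.of] at h1
  · have hu : FreeGroup.map some (FreeGroup.map Sum.inl d * FreeGroup.map Sum.inr e) *
        FreeGroup.of none = iA d * iB e * FreeGroup.of none := by
      rw [map_mul]
      rfl
    have h1 : rr e p q (FreeGroup.map Sum.inl d * FreeGroup.map Sum.inr e) =
        QQ (q e) * PP e (p d) := by
      rw [map_mul, rr_inl, rr_inr, inv_mul_cancel_right]
    rw [h1, hu]
    have hQB : ∀ w : FreeGroup Y, QQ (X := X) (q e) (iB w) =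
        (FreeGroup.of none)⁻¹ * iB w * FreeGroup.of none := by
      intro w
      rw [← iR_some, QQ_R, hq.full, MulAut.mul_apply, extO_some, ← map_inv, MulAut.conj_apply,
        MulAut.conj_apply]
      simp only [map_mul, map_inv, iR_some, iR_none]
      group
    have hQt : QQ (X := X) (q e) (FreeGroup.of none) =
        (iB e * FreeGroup.of none)⁻¹ * FreeGroup.of none * (iB e * FreeGroup.of none) := by
      rw [← iR_none, QQ_R, hq.full, MulAut.mul_apply, extO_none, ← map_inv, MulAut.conj_apply]
      simp only [map_mul, map_inv, iR_some, iR_none]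
      group
    have hPA : ∀ w : FreeGroup X, PP e (p d) (iA w) =
        (iB e * FreeGroup.of none * (iB e)⁻¹)⁻¹ * iA w *
          (iB e * FreeGroup.of none * (iB e)⁻¹) := by
      intro w
      rw [← iL_some e, PP_L, hp.full, MulAut.mul_apply, extO_some, ← map_inv, MulAut.conj_apply,
        MulAut.conj_apply]
      simp only [map_mul, map_inv, iL_some, iL_none]
      group
    have hPt : PP e (p d) (FreeGroup.of none) =
        (iB e)⁻¹ * ((iA d * (iB e * FreeGroup.of none * (iB e)⁻¹))⁻¹ *
          (iB e * FreeGroup.of none * (iB e)⁻¹) *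
          (iA d * (iB e * FreeGroup.of none * (iB e)⁻¹))) * iB e := by
      have h3 : (FreeGroup.of none : FreeGroup (Option (X ⊕ Y))) =
          (iB e)⁻¹ * iL e (FreeGroup.of none) * iB e := by
        rw [iL_none]; group
      have h4 : PP e (p d) (FreeGroup.of none) =
          (iB e)⁻¹ * iL e (p d (FreeGroup.of none)) * iB e := by
        rw [h3, map_mul, map_mul, map_inv, PP_B, PP_L]
      rw [h4, hp.full, MulAut.mul_apply, extO_none, ← map_inv, MulAut.conj_apply]
      simp only [map_mul, map_inv, iL_some, iL_none]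
      group
    have hconj : ∀ v w : FreeGroup (Option (X ⊕ Y)), (MulAut.conj v)⁻¹ w = v⁻¹ * w * v := by
      intro v w
      rw [← map_inv, MulAut.conj_apply, inv_inv]
    have hD : ∀ w : FreeGroup (X ⊕ Y), extO (MulAut.conj (FreeGroup.map Sum.inl d *
        FreeGroup.map Sum.inr e)) (FreeGroup.map some w) =
        (iA d * iB e) * FreeGroup.map some w * (iA d * iB e)⁻¹ := by
      intro w
      rw [extO_some, MulAut.conj_apply, map_mul, map_mul, map_mul, map_inv, map_mul]
      rfl
    apply MulEquiv.toMonoidHom_injective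
    apply three_ext
    · intro w
      change (QQ (q e) * PP e (p d) : MulAut (FreeGroup (Option (X ⊕ Y)))) (iA w) = ((MulAut.conj (iA d * iB e * FreeGroup.of none))⁻¹ *
        extO (MulAut.conj (FreeGroup.map Sum.inl d * FreeGroup.map Sum.inr e)) :
        MulAut (FreeGroup (Option (X ⊕ Y)))) (iA w)
      rw [MulAut.mul_apply, MulAut.mul_apply, hPA, hconj]
      have h2 : extO (MulAut.conj (FreeGroup.map Sum.inl d * FreeGroup.map Sum.inr e)) (iA w) =
        (iA d * iB e) * iA w * (iA d * iB e)⁻¹ := hD _
      rw [h2]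
      simp only [map_mul, map_inv, hQB, hQt, QQ_A]
      group
    · intro w
      change (QQ (q e) * PP e (p d) : MulAut (FreeGroup (Option (X ⊕ Y)))) (iB w) = ((MulAut.conj (iA d * iB e * FreeGroup.of none))⁻¹ *
        extO (MulAut.conj (FreeGroup.map Sum.inl d * FreeGroup.map Sum.inr e)) :
        MulAut (FreeGroup (Option (X ⊕ Y)))) (iB w)
      rw [MulAut.mul_apply, MulAut.mul_apply, PP_B, hconj]
      have h2 : extO (MulAut.conj (FreeGroup.map Sum.inl d * FreeGroup.map Sum.inr e)) (iB w) =
        (iA d * iB e) * iB w * (iA d * iB e)⁻¹ := hD _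
      rw [h2, hQB]
      group
    · change (QQ (q e) * PP e (p d) : MulAut (FreeGroup (Option (X ⊕ Y)))) (FreeGroup.of none) =
        ((MulAut.conj (iA d * iB e * FreeGroup.of none))⁻¹ *
        extO (MulAut.conj (FreeGroup.map Sum.inl d * FreeGroup.map Sum.inr e)) :
        MulAut (FreeGroup (Option (X ⊕ Y)))) (FreeGroup.of none)
      rw [MulAut.mul_apply, MulAut.mul_apply, hPt, hconj, extO_none]
      simp only [map_mul, map_inv, hQB, hQt, QQ_A]
      group

/-- The boundary words of compact surfaces with one distinguished boundary component: products, on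
disjoint letters, of words `x` (a further boundary component), `[a, b]` (a handle) and `x x`
(a crosscap). -/
inductive SurfaceWord : (X : Type) → FreeGroup X → Prop
  | disc : SurfaceWord Empty 1
  | hole : SurfaceWord Unit (FreeGroup.of ())
  | crosscap : SurfaceWord Unit (FreeGroup.of () * FreeGroup.of ())
  | handle : SurfaceWord Bool handD
  | sum {X Y : Type} {d : FreeGroup X} {e : FreeGroup Y} (hd : SurfaceWord X d)
      (he : SurfaceWord Y e) :
      SurfaceWord (X ⊕ Y) (FreeGroup.map Sum.inl d * FreeGroup.map Sum.inr e)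

/-- Point pushing exists for all surfaces with one distinguished boundary component. -/
theorem exists_push_of_surfaceWord {X : Type} {d : FreeGroup X} (h : SurfaceWord X d) :
    ∃ p, IsPush d p := by
  induction h with
  | disc => exact ⟨1, isPush_disc⟩
  | hole => exact isPush_hole
  | crosscap => exact isPush_cap
  | handle => exact ⟨handP, isPush_handle⟩
  | sum _ _ h1 h2 =>
    obtain ⟨p, hp⟩ := h1
    obtain ⟨q, hq⟩ := h2
    exact ⟨_, isPush_sum hp hq⟩

end sums

end Pool.Agent.CSPBir
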