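import Mathlib
import Pool.Agent.CSPBir.Sum
import Pool.Agent.CSPBir.MalPow
import Pool.Agent.CSPHier.StabCsp

set_option autoImplicit false

/-! The congruence subgroup property for boundary twists and for the mapping class group of the
torus with one boundary component. -/

namespace Pool.Agent.CSPBir

open Pool.Agent.CSPHier

/-! ### Commuting elements of free groups -/

theorem freeGroup_comm_subsingleton (X : Type) (h : ∀ a b : FreeGroup X, a * b = b * a) :
    Subsingleton X := by
  classical
  constructor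
  intro i j
  by_contra hij
  have := congrArg (FreeGroup.lift (fun x : X => if x = i then (Equiv.swap (0 : Fin 3) 1) else
    (Equiv.swap (1 : Fin 3) 2))) (h (FreeGroup.of i) (FreeGroup.of j))
  simp only [map_mul, FreeGroup.lift_apply_of, if_true, Ne.symm hij, if_false] at this
  have h2 := congrArg (fun e : Equiv.Perm (Fin 3) => e 0) this
  revert h2
  decide

theorem free_comm_cyclic (K : Type) [Group K] [IsFreeGroup K] (h : ∀ a b : K, a * b = b * a) :
    ∃ c : K, ∀ g : K, g ∈ Subgroup.zpowers c := by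
  classical
  have e := IsFreeGroup.toFreeGroup K
  have hX : Subsingleton (IsFreeGroup.Generators K) := by
    apply freeGroup_comm_subsingleton
    intro a b
    apply e.symm.injective
    simp [h]
  rcases isEmpty_or_nonempty (IsFreeGroup.Generators K) with hE | ⟨⟨x⟩⟩
  · refine ⟨1, fun g => ?_⟩
    have : g = 1 := by
      apply e.injective
      have : Subsingleton (FreeGroup (IsFreeGroup.Generators K)) := inferInstance
      exact Subsingleton.elim _ _
    rw [this]
    exact one_mem _
  · refine ⟨e.symm (FreeGroup.of x), fun g => ?_⟩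
    have h1 : e g ∈ Subgroup.closure (Set.range (FreeGroup.of (α := IsFreeGroup.Generators K))) := by
      rw [FreeGroup.closure_range_of]; trivial
    have h2 : Set.range (FreeGroup.of (α := IsFreeGroup.Generators K)) = {FreeGroup.of x} := by
      ext y
      constructor
      · rintro ⟨z, rfl⟩
        rw [Subsingleton.elim z x]; rfl
      · rintro rfl
        exact ⟨x, rfl⟩
    rw [h2, ← Subgroup.zpowers_eq_closure, Subgroup.mem_zpowers_iff] at h1
    obtain ⟨k, hk⟩ := h1
    rw [Subgroup.mem_zpowers_iff]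
    refine ⟨k, ?_⟩
    apply e.injective
    simp [hk]

theorem exists_zpow_of_comm {F : Type} [Group F] [IsFreeGroup F] (x y : F) (h : x * y = y * x) :
    ∃ c : F, ∃ s t : ℤ, x = c ^ s ∧ y = c ^ t := by
  have hc : ∀ u ∈ ({x, y} : Set F), ∀ v ∈ ({x, y} : Set F), u * v = v * u := by
    rintro u (rfl | rfl) v (rfl | rfl) <;> simp [h]
  let K := Subgroup.closure ({x, y} : Set F)
  have hK : ∀ a b : K, a * b = b * a := by
    have := Subgroup.isMulCommutative_closure hc
    intro a b
    exact this.is_comm.comm a b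
  obtain ⟨c, hc'⟩ := free_comm_cyclic K hK
  obtain ⟨s, hs⟩ := Subgroup.mem_zpowers_iff.1 (hc' ⟨x, Subgroup.subset_closure (by simp)⟩)
  obtain ⟨t, ht⟩ := Subgroup.mem_zpowers_iff.1 (hc' ⟨y, Subgroup.subset_closure (by simp)⟩)
  refine ⟨c, s, t, ?_, ?_⟩
  · have := congrArg (fun k : K => (k : F)) hs
    simpa using this.symm
  · have := congrArg (fun k : K => (k : F)) ht
    simpa using this.symm

/-! ### Elements whose powers are detected by the levels -/

/-- The levels induce the full profinite topology on the group generated by `d`. -/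
def Deep {G : Type} [Group G] (d : G) : Prop :=
  ∀ k : ℕ, 0 < k → ∃ m : ℕ, ∀ j : ℤ, d ^ j ∈ L G m → (k : ℤ) ∣ j

theorem deep_of_map {G H : Type} [Group G] [Group H] (f : G →* H) {d : G} (h : Deep (f d)) :
    Deep d := by
  intro k hk
  obtain ⟨m, hm⟩ := h k hk
  refine ⟨m, fun j hj => hm j ?_⟩
  have h1 := L_map f hj
  rwa [map_zpow] at h1

theorem deep_of_finite {G : Type} [Group G] (d : G)
    (h : ∀ k : ℕ, 0 < k → ∃ (S : Type) (_ : Group S) (_ : Finite S) (f : G →* S),
      ∀ j : ℤ, f (d ^ j) = 1 → (k : ℤ) ∣ j) : Deep d := by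
  intro k hk
  obtain ⟨S, hS, hfin, f, hf⟩ := h k hk
  obtain ⟨m, hm⟩ := L_le_ker S
  exact ⟨m, fun j hj => hf j (hm f hj)⟩

theorem deep_hole : Deep (FreeGroup.of ()) := by
  refine deep_of_finite _ fun k hk => ?_
  have : NeZero k := ⟨hk.ne'⟩
  refine ⟨Multiplicative (ZMod k), inferInstance, inferInstance,
    FreeGroup.lift fun _ => Multiplicative.ofAdd 1, fun j hj => ?_⟩
  rw [map_zpow, FreeGroup.lift_apply_of, ← ofAdd_zsmul] at hj
  have h1 : j • (1 : ZMod k) = 0 := hj
  rw [zsmul_one] at h1
  exact (ZMod.intCast_zmod_eq_zero_iff_dvd j k).mp h1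

theorem deep_crosscap : Deep (FreeGroup.of () * FreeGroup.of ()) := by
  refine deep_of_finite _ fun k hk => ?_
  have : NeZero (2 * k) := ⟨by omega⟩
  refine ⟨Multiplicative (ZMod (2 * k)), inferInstance, inferInstance,
    FreeGroup.lift fun _ => Multiplicative.ofAdd 1, fun j hj => ?_⟩
  rw [map_zpow, map_mul, FreeGroup.lift_apply_of, ← ofAdd_add, ← ofAdd_zsmul] at hj
  have h1 : j • ((1 : ZMod (2 * k)) + 1) = 0 := hj
  have h2 : ((2 * j : ℤ) : ZMod (2 * k)) = 0 := by
    rw [← h1]
    push_cast
    rw [zsmul_eq_mul]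
    ring
  have h3 := (ZMod.intCast_zmod_eq_zero_iff_dvd (2 * j) (2 * k)).mp h2
  push_cast at h3
  exact (mul_dvd_mul_iff_left (by norm_num : (2 : ℤ) ≠ 0)).mp h3

section heis

variable (k : ℕ)

/-- Heisenberg group, first generator. -/
def heisA : Equiv.Perm (ZMod k × ZMod k) where
  toFun a := (a.1 + 1, a.2)
  invFun a := (a.1 - 1, a.2)
  left_inv := by intro a; simp
  right_inv := by intro a; simp

/-- Heisenberg group, second generator. -/
def heisB : Equiv.Perm (ZMod k × ZMod k) where
  toFun a := (a.1, a.2 + a.1)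
  invFun a := (a.1, a.2 - a.1)
  left_inv := by intro a; simp
  right_inv := by intro a; simp

/-- Heisenberg group, the centre. -/
def heisC : Equiv.Perm (ZMod k × ZMod k) where
  toFun a := (a.1, a.2 - 1)
  invFun a := (a.1, a.2 + 1)
  left_inv := by intro a; simp
  right_inv := by intro a; simp

theorem heis_comm : heisA k * heisB k * (heisA k)⁻¹ * (heisB k)⁻¹ = heisC k := by
  ext1 a
  simp only [Equiv.Perm.mul_apply, Equiv.Perm.inv_def, heisA, heisB, heisC, Equiv.coe_fn_mk,
    Equiv.coe_fn_symm_mk]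
  refine Prod.ext ?_ ?_
  · ring
  · ring

theorem heisC_pow (n : ℕ) (a : ZMod k × ZMod k) : (heisC k ^ n) a = (a.1, a.2 - n) := by
  induction n with
  | zero => simp
  | succ n ih =>
    rw [pow_succ', Equiv.Perm.mul_apply, ih]
    simp only [heisC, Equiv.coe_fn_mk]
    refine Prod.ext rfl ?_
    push_cast
    ring

theorem heisC_zpow (j : ℤ) (h : heisC k ^ j = 1) : (k : ℤ) ∣ j := by
  rw [← ZMod.intCast_zmod_eq_zero_iff_dvd]
  rcases Int.eq_nat_or_neg j with ⟨n, rfl | rfl⟩
  · rw [zpow_natCast] at h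
    have h1 := congrArg (fun e : Equiv.Perm (ZMod k × ZMod k) => (e (0, 0)).2) h
    simp only [heisC_pow, Equiv.Perm.one_apply] at h1
    push_cast
    simpa using h1
  · rw [zpow_neg, zpow_natCast, inv_eq_one] at h
    have h1 := congrArg (fun e : Equiv.Perm (ZMod k × ZMod k) => (e (0, 0)).2) h
    simp only [heisC_pow, Equiv.Perm.one_apply] at h1
    push_cast
    simpa using h1

end heis

theorem deep_handle : Deep handD := by
  refine deep_of_finite _ fun k hk => ?_
  have : NeZero k := ⟨hk.ne'⟩
  refine ⟨Equiv.Perm (ZMod k × ZMod k), inferInstance, inferInstance,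
    FreeGroup.lift fun y => cond y (heisA k) (heisB k), fun j hj => ?_⟩
  apply heisC_zpow
  rw [← heis_comm, ← hj, map_zpow]
  congr 1

theorem deep_bw : Deep bw := by
  refine deep_of_map (FreeGroup.lift ![FreeGroup.of true, (FreeGroup.of false)⁻¹] :
    F2 →* FreeGroup Bool) ?_
  have h1 : (FreeGroup.lift ![FreeGroup.of true, (FreeGroup.of false)⁻¹] :
    F2 →* FreeGroup Bool) bw = handD := by
    simp [bw, handD, X, Y]
  rw [h1]
  exact deep_handle

theorem deep_of_surfaceWord {X : Type} {d : FreeGroup X} (h : SurfaceWord X d) :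
    d = 1 ∨ Deep d := by
  induction h with
  | disc => exact Or.inl rfl
  | hole => exact Or.inr deep_hole
  | crosscap => exact Or.inr deep_crosscap
  | handle => exact Or.inr deep_handle
  | @sum X Y d e _ _ h1 h2 =>
    rcases h1 with h1 | h1
    · rcases h2 with h2 | h2
      · left
        rw [h1, h2]; simp
      · right
        refine deep_of_map (retR (X := X) (Y := Y)) ?_
        rw [map_mul, retR_inr, h1]
        simpa using h2
    · right
      refine deep_of_map (retL (X := X) (Y := Y)) ?_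
      have h3 : retL (FreeGroup.map (Sum.inr : Y → X ⊕ Y) e) = 1 := by
        have h4 : (retL (X := X) (Y := Y)).comp (FreeGroup.map Sum.inr) = 1 := by
          ext y
          simp [retL]
        exact DFunLike.congr_fun h4 e
      rw [map_mul, retL_inl, h3, mul_one]
      exact h1

/-! ### Centralisers -/

/-- An element commuting with `d` and lying in a deep level acts by conjugation as an element of a
given subgroup of finite index of a group containing the conjugations by the elements commuting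
with `d`. -/
theorem exists_comm_level {X : Type} {d : FreeGroup X} (hd : Deep d)
    (S N : Subgroup (MulAut (FreeGroup X))) (hS : ∀ e, e * d = d * e → MulAut.conj e ∈ S)
    (hN : N.relIndex S ≠ 0) :
    ∃ m : ℕ, ∀ l : FreeGroup X, l * d = d * l → l ∈ L (FreeGroup X) m → MulAut.conj l ∈ N := by
  obtain ⟨m, hm⟩ := hd (Nat.factorial (N.relIndex S)) (Nat.factorial_pos _)
  refine ⟨m, fun l hl hlm => ?_⟩
  obtain ⟨e, t, s, ht, hs⟩ := exists_zpow_of_comm l d hl
  have h1 : d ^ t ∈ L (FreeGroup X) m := by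
    have h2 : d ^ t = l ^ s := by rw [hs, ht, ← zpow_mul, ← zpow_mul, mul_comm]
    rw [h2]
    exact zpow_mem hlm _
  obtain ⟨q, hq⟩ := hm t h1
  have he : MulAut.conj e ∈ S := by
    apply hS
    rw [hs, ← zpow_one_add, ← zpow_add_one, add_comm]
  have h2 : MulAut.conj e ^ Nat.factorial (N.relIndex S) ∈ N :=
    (Subgroup.pow_mem_of_relIndex_ne_zero_of_dvd hN he
      (fun i hi hi' => Nat.dvd_factorial hi hi')).1
  rw [ht, hq, zpow_mul, zpow_natCast, map_zpow, map_pow]
  exact zpow_mem h2 _

theorem comm_of_subsingleton {X : Type} [Subsingleton X] (a b : FreeGroup X) : a * b = b * a := by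
  have hc : ∀ u ∈ Set.range (FreeGroup.of (α := X)), ∀ v ∈ Set.range (FreeGroup.of (α := X)),
      u * v = v * u := by
    rintro _ ⟨x, rfl⟩ _ ⟨y, rfl⟩
    rw [Subsingleton.elim x y]
  have h1 := Subgroup.isMulCommutative_closure hc
  have ha : a ∈ Subgroup.closure (Set.range (FreeGroup.of (α := X))) := by
    rw [FreeGroup.closure_range_of]; trivial
  have hb : b ∈ Subgroup.closure (Set.range (FreeGroup.of (α := X))) := by
    rw [FreeGroup.closure_range_of]; trivial
  exact congrArg Subtype.val (h1.is_comm.comm ⟨a, ha⟩ ⟨b, hb⟩)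

theorem conj_of_subsingleton {X : Type} [Subsingleton X] (a : FreeGroup X) :
    MulAut.conj a = 1 := by
  ext1 w
  rw [MulAut.conj_apply, comm_of_subsingleton a w, mul_inv_cancel_right, MulAut.one_apply]

/-- Boundary twists. -/
theorem csp_twist {X : Type} [Finite X] {d : FreeGroup X} (hd : d = 1 ∨ Deep d) :
    Csp X (Subgroup.zpowers (MulAut.conj d)) := by
  intro N hN
  rcases subsingleton_or_nontrivial X with hX | hX
  · refine ⟨0, fun α hα _ => ?_⟩
    rw [conj_of_subsingleton, Subgroup.zpowers_one_eq_bot, Subgroup.mem_bot] at hα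
    rw [hα]
    exact one_mem _
  obtain ⟨z0, z1, hz⟩ := exists_pair_ne X
  rcases hd with rfl | hd
  · refine ⟨0, fun α hα _ => ?_⟩
    rw [map_one, Subgroup.zpowers_one_eq_bot, Subgroup.mem_bot] at hα
    rw [hα]
    exact one_mem _
  obtain ⟨m, hm⟩ := hd (Nat.factorial (N.relIndex (Subgroup.zpowers (MulAut.conj d))))
    (Nat.factorial_pos _)
  obtain ⟨m', hm'⟩ := centralizer_level z0 z1 hz ⊤ inferInstance m
  refine ⟨m', fun α hα hαm => ?_⟩
  obtain ⟨j, rfl⟩ := Subgroup.mem_zpowers_iff.mp hα
  have h1 : d ^ j ∈ L (FreeGroup X) m := by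
    apply hm'
    intro w _
    have h2 := mem_cong.mp hαm w
    rwa [← map_zpow, MulAut.conj_apply] at h2
  obtain ⟨q, hq⟩ := hm j h1
  have h2 : MulAut.conj d ^ Nat.factorial (N.relIndex (Subgroup.zpowers (MulAut.conj d))) ∈ N :=
    (Subgroup.pow_mem_of_relIndex_ne_zero_of_dvd hN (Subgroup.mem_zpowers _)
      (fun i hi hi' => Nat.dvd_factorial hi hi')).1
  rw [hq, zpow_mul, zpow_natCast]
  exact zpow_mem h2 _

/-- The stabiliser of an element. -/
def fixer {X : Type} (d : FreeGroup X) : Subgroup (MulAut (FreeGroup X)) where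
  carrier := {φ | φ d = d}
  one_mem' := rfl
  mul_mem' := by
    intro a b ha hb
    change a (b d) = d
    rw [show b d = d from hb, show a d = d from ha]
  inv_mem' := by
    intro a ha
    change a⁻¹ d = d
    have h1 : a d = d := ha
    rw [← h1, MulAut.inv_apply_self, h1]

theorem mem_fixer {X : Type} {d : FreeGroup X} {φ : MulAut (FreeGroup X)} :
    φ ∈ fixer d ↔ φ d = d := Iff.rfl

/-- The mapping class group of the torus with one boundary component. -/
theorem csp_fixer_bw : Csp (Fin 2) (fixer bw) := by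
  intro N hN
  have hS : ∀ e : F2, e * bw = bw * e → MulAut.conj e ∈ fixer bw := by
    intro e he
    rw [mem_fixer, MulAut.conj_apply, he, mul_inv_cancel_right]
  obtain ⟨m2, hm2⟩ := exists_comm_level deep_bw (fixer bw) N hS hN
  obtain ⟨mD, hmD⟩ := center_level m2
  have hJ : ((N ⊓ cong F2 mD).comap sec).FiniteIndex := by
    refine comap_finiteIndex' sec (fixer bw) _ sec_bw ?_
    refine Subgroup.relIndex_inf_ne_zero hN ?_
    have h1 : (cong F2 mD).index ≠ 0 := (cong_finiteIndex (X := Fin 2) mD).index_ne_zero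
    intro h2
    exact h1 (Nat.eq_zero_of_zero_dvd (h2 ▸ Subgroup.relIndex_dvd_index_of_normal _ _))
  obtain ⟨m1, hm1⟩ := asada_core _ hJ
  obtain ⟨m4, hm4⟩ := L_le_ker (Multiplicative (ZMod 4 × ZMod 4))
  refine ⟨max m1 (max mD m4), fun φ hφS hφ => ?_⟩
  have hφc := hφ
  rw [mem_cong] at hφ
  have hR : φ ∈ R := by
    apply mem_R_of_trivial
    intro w
    have h1 := hm4 ab4 (L_anti ((le_max_right _ _).trans (le_max_right _ _)) (hφ w))
    rw [MonoidHom.mem_ker, map_mul, map_inv] at h1
    have h2 := mul_inv_eq_one.mp h1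
    exact ⟨by rw [ax, ax, h2], by rw [ay, ay, h2]⟩
  obtain ⟨f, e, hfe⟩ := R_decomp hR
  have he : e ∈ (N ⊓ cong F2 mD).comap sec := by
    apply hm1 e f⁻¹
    intro w
    have h1 : sec e w = f⁻¹ * φ w * f := by
      rw [hfe, MulAut.mul_apply, MulAut.conj_apply]; group
    rw [h1]
    have h2 : f⁻¹ * φ w * f * (f⁻¹ * w * f⁻¹⁻¹)⁻¹ = f⁻¹ * (φ w * w⁻¹) * f⁻¹⁻¹ := by group
    rw [h2]
    exact (L_normal _).conj_mem _ (L_anti (le_max_left _ _) (hφ w)) _
  obtain ⟨he1, he2⟩ := he
  have hf : MulAut.conj f = φ * (sec e)⁻¹ := by rw [hfe]; group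
  have hfD : MulAut.conj f ∈ cong F2 mD := by
    rw [hf]
    exact mul_mem (cong_anti ((le_max_left _ _).trans (le_max_right _ _)) hφc) (inv_mem he2)
  have hfb : f * bw = bw * f := by
    have h1 : MulAut.conj f bw = bw := by
      rw [hf]
      exact (fixer bw).mul_mem hφS ((fixer bw).inv_mem (sec_bw e))
    rw [MulAut.conj_apply] at h1
    exact mul_inv_eq_iff_eq_mul.mp h1
  have hfm : f ∈ L F2 m2 := by
    rw [mem_cong] at hfD
    apply hmD
    · have := hfD X
      rwa [MulAut.conj_apply] at this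
    · have := hfD Y
      rwa [MulAut.conj_apply] at this
  rw [hfe]
  exact mul_mem (hm2 f hfb hfm) he1

theorem csp_torus : Csp Bool (fixer handD) := by
  let ψ : F2 ≃* FreeGroup Bool :=
    MonoidHom.toMulEquiv (FreeGroup.lift ![FreeGroup.of true, (FreeGroup.of false)⁻¹])
      (FreeGroup.lift fun y => cond y X Y⁻¹)
      (by ext i; fin_cases i <;> simp [X, Y])
      (by ext i; cases i <;> simp [X, Y])
  have h1 : ψ bw = handD := by
    change (FreeGroup.lift ![FreeGroup.of true, (FreeGroup.of false)⁻¹] :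
      F2 →* FreeGroup Bool) bw = handD
    simp [bw, handD, X, Y]
  refine csp_transport ψ (fixer bw) (fixer handD) ?_ csp_fixer_bw
  intro φ
  rw [mem_fixer, mem_fixer]
  have h2 : MulAut.congr ψ φ handD = ψ (φ bw) := by
    change ψ (φ (ψ.symm handD)) = _
    rw [← h1, MulEquiv.symm_apply_apply]
  rw [h2, ← h1]
  exact (ψ.injective.eq_iff).symm

end Pool.Agent.CSPBir
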