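import Mathlib
import Pool.Agent.CSPBir.MalPow

set_option autoImplicit false

/-! The congruence property for restrictions to subgroups of finite index. -/

namespace Pool.Agent.CSPBir

open Pool.Agent.CSPHier

section restrict

variable {X Z : Type} (ι : FreeGroup Z →* FreeGroup X) (hι : Function.Injective ι)
  (m0 : ℕ) (hm0 : L (FreeGroup X) m0 ≤ ι.range)

include hm0 in
theorem exists_restrict {α : MulAut (FreeGroup X)} (hα : α ∈ cong (FreeGroup X) m0)
    (w : FreeGroup Z) : ∃ v : FreeGroup Z, ι v = α (ι w) := by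
  have h1 := hm0 (mem_cong.mp hα (ι w))
  have h2 : α (ι w) ∈ ι.range := by
    have h3 := mul_mem h1 (⟨w, rfl⟩ : ι w ∈ ι.range)
    rwa [inv_mul_cancel_right] at h3
  exact h2

/-- The restriction of an automorphism close to the identity, as a map. -/
noncomputable def resFun (α : cong (FreeGroup X) m0) (w : FreeGroup Z) : FreeGroup Z :=
  Classical.choose (exists_restrict ι m0 hm0 α.2 w)

theorem resFun_spec (α : cong (FreeGroup X) m0) (w : FreeGroup Z) :
    ι (resFun ι m0 hm0 α w) = α.1 (ι w) :=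
  Classical.choose_spec (exists_restrict ι m0 hm0 α.2 w)

include hι in
theorem resFun_mul (α β : cong (FreeGroup X) m0) (w : FreeGroup Z) :
    resFun ι m0 hm0 (α * β) w = resFun ι m0 hm0 α (resFun ι m0 hm0 β w) := by
  apply hι
  rw [resFun_spec, resFun_spec, resFun_spec]
  rfl

include hι in
theorem resFun_one (w : FreeGroup Z) : resFun ι m0 hm0 1 w = w := by
  apply hι
  rw [resFun_spec]
  rfl

/-- The restriction of automorphisms close to the identity. -/
noncomputable def res : cong (FreeGroup X) m0 →* MulAut (FreeGroup Z) where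
  toFun α :=
    { toFun := resFun ι m0 hm0 α
      invFun := resFun ι m0 hm0 α⁻¹
      left_inv := by
        intro w
        rw [← resFun_mul ι hι, inv_mul_cancel, resFun_one ι hι]
      right_inv := by
        intro w
        rw [← resFun_mul ι hι, mul_inv_cancel, resFun_one ι hι]
      map_mul' := by
        intro v w
        apply hι
        rw [resFun_spec, map_mul, map_mul, map_mul, resFun_spec, resFun_spec] }
  map_one' := by
    ext1 w
    exact resFun_one ι hι m0 hm0 w
  map_mul' := by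
    intro α β
    ext1 w
    exact resFun_mul ι hι m0 hm0 α β w

theorem res_spec (α : cong (FreeGroup X) m0) (w : FreeGroup Z) :
    ι (res ι hι m0 hm0 α w) = α.1 (ι w) := resFun_spec ι m0 hm0 α w

end restrict

/-- **Congruence property for the restriction to a subgroup of finite index.** -/
theorem good_down {X Z : Type} [Finite X] (z0 z1 : X) (hz : z0 ≠ z1)
    (ι : FreeGroup Z →* FreeGroup X) (hι : Function.Injective ι) (hfi : ι.range.FiniteIndex)
    (C : MulAut (FreeGroup X) → Prop) (hC : Good X C) :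
    Good Z (fun φ => ∃ α, C α ∧ ∀ w, ι (φ w) = α (ι w)) := by
  intro N hN
  obtain ⟨m0, hm0⟩ := exists_L_le ι.range hfi
  have hN2 : ((N.comap (res ι hι m0 hm0)).map (cong (FreeGroup X) m0).subtype).FiniteIndex := by
    refine ⟨?_⟩
    rw [Subgroup.index_map_subtype]
    exact mul_ne_zero (comap_finiteIndex _ _ hN).index_ne_zero
      (cong_finiteIndex (X := X) m0).index_ne_zero
  obtain ⟨m, hm⟩ := hC _ hN2
  obtain ⟨m', hm'⟩ := centralizer_level z0 z1 hz (L (FreeGroup X) m0) inferInstance m
  refine ⟨m', ?_⟩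
  rintro φ ⟨α, hα, h⟩ hφ
  have hran : ∀ e ∈ ι.range, α e * e⁻¹ ∈ L (FreeGroup X) m' := by
    rintro _ ⟨w, rfl⟩
    rw [← h, ← map_inv, ← map_mul]
    exact L_map ι (mem_cong.mp hφ w)
  have hαm : α ∈ cong (FreeGroup X) m := by
    rw [mem_cong]
    intro x
    have ht : x⁻¹ * α x ∈ L (FreeGroup X) m := by
      refine hm' _ ?_
      intro d hd
      have h1 := hran d (hm0 hd)
      have h2 := hran (x * d * x⁻¹) (hm0 ((L_normal m0).conj_mem _ hd x))
      rw [map_mul, map_mul, map_inv] at h2
      rw [← QuotientGroup.ker_mk' (L (FreeGroup X) m'), MonoidHom.mem_ker] at h1 h2 ⊢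
      obtain ⟨q, hq⟩ : ∃ q, q = QuotientGroup.mk' (L (FreeGroup X) m') := ⟨_, rfl⟩
      rw [← hq] at h1 h2 ⊢
      simp only [map_mul, map_inv] at h1 h2 ⊢
      have h3 : q (α d) = q d := mul_inv_eq_one.mp h1
      rw [h3] at h2
      have h4 : q (α x) * q d * (q (α x))⁻¹ = q x * q d * (q x)⁻¹ := mul_inv_eq_one.mp h2
      have h5 : (q x)⁻¹ * q (α x) * q d * ((q x)⁻¹ * q (α x))⁻¹ * (q d)⁻¹ =
          (q x)⁻¹ * (q (α x) * q d * (q (α x))⁻¹) * q x * (q d)⁻¹ := by group
      rw [h5, h4]
      group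
    have h1 := (L_normal m).conj_mem _ ht x
    have h2 : x * (x⁻¹ * α x) * x⁻¹ = α x * x⁻¹ := by group
    rwa [h2] at h1
  obtain ⟨a, ha, rfl⟩ := hm α hα hαm
  have h1 : res ι hι m0 hm0 a = φ := by
    ext1 w
    apply hι
    rw [res_spec, h]
    rfl
  rw [← h1]
  exact ha

section schreier

variable {X Q : Type} [MulAction (FreeGroup X) Q]

/-- The permutations attached to a function on the edges of the Schreier graph. -/
def schSig (f : X → Q → ZMod 2) (z : X) : Equiv.Perm (Q × ZMod 2) where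
  toFun a := (FreeGroup.of z • a.1, a.2 + f z a.1)
  invFun a := ((FreeGroup.of z)⁻¹ • a.1, a.2 - f z ((FreeGroup.of z)⁻¹ • a.1))
  left_inv := by intro a; simp
  right_inv := by intro a; simp

/-- The permutation representation. -/
def sch (f : X → Q → ZMod 2) : FreeGroup X →* Equiv.Perm (Q × ZMod 2) :=
  FreeGroup.lift (schSig f)

/-- The cocycle. -/
def kap (f : X → Q → ZMod 2) (w : FreeGroup X) (q : Q) : ZMod 2 := (sch f w (q, 0)).2

theorem sch_fst (f : X → Q → ZMod 2) (w : FreeGroup X) (a : Q × ZMod 2) :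
    (sch f w a).1 = w • a.1 := by
  induction w using FreeGroup.induction_on generalizing a with
  | C1 => simp
  | of j => simp [sch, schSig]
  | inv_of j _ => simp [sch, schSig, Equiv.Perm.inv_def]
  | mul x y hx hy => rw [map_mul, Equiv.Perm.mul_apply, hx, hy, mul_smul]

theorem sch_add (f : X → Q → ZMod 2) (w : FreeGroup X) (q : Q) (c e : ZMod 2) :
    (sch f w (q, c + e)).2 = (sch f w (q, c)).2 + e := by
  induction w using FreeGroup.induction_on generalizing q c with
  | C1 => simp
  | of j => simp [sch, schSig]; ring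
  | inv_of j _ => simp [sch, schSig, Equiv.Perm.inv_def]; ring
  | mul x y hx hy =>
    rw [map_mul, Equiv.Perm.mul_apply, Equiv.Perm.mul_apply]
    have h1 : sch f y (q, c + e) = ((sch f y (q, c)).1, (sch f y (q, c)).2 + e) :=
      Prod.ext (by rw [sch_fst, sch_fst]) (hy q c)
    rw [h1, hx]

theorem kap_mul (f : X → Q → ZMod 2) (v w : FreeGroup X) (q : Q) :
    kap f (v * w) q = kap f w q + kap f v (w • q) := by
  unfold kap
  rw [map_mul, Equiv.Perm.mul_apply]
  have h1 : sch f w (q, 0) = (w • q, 0 + (sch f w (q, 0)).2) :=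
    Prod.ext (sch_fst f w (q, 0)) (by simp)
  rw [h1, sch_add]
  simp only [zero_add]
  ring

theorem kap_one (f : X → Q → ZMod 2) (q : Q) : kap f 1 q = 0 := by simp [kap]

theorem kap_of (f : X → Q → ZMod 2) (z : X) (q : Q) : kap f (FreeGroup.of z) q = f z q := by
  simp [kap, sch, schSig]

end schreier

/-- One half of the Schreier index formula. -/
theorem schreier_le {X Z : Type} [Finite X] [Finite Z]
    (ι : FreeGroup Z →* FreeGroup X) (hfi : ι.range.FiniteIndex) :
    Nat.card X * ι.range.index + 1 ≤ Nat.card Z + ι.range.index := by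
  classical
  obtain ⟨E, hE⟩ : ∃ E, E = ι.range := ⟨_, rfl⟩
  rw [← hE] at hfi ⊢
  have hιE : ∀ w, ι w ∈ E := fun w => by rw [hE]; exact ⟨w, rfl⟩
  have hEι : ∀ x ∈ E, ∃ w, ι w = x := fun x hx => by rw [hE] at hx; exact hx
  have hfin : Finite (FreeGroup X ⧸ E) := inferInstance
  set o : FreeGroup X ⧸ E := ((1 : FreeGroup X) : FreeGroup X ⧸ E) with ho
  have hfix : ∀ w, ι w • o = o := by
    intro w
    change ((ι w * 1 : FreeGroup X) : FreeGroup X ⧸ E) = _
    rw [ho, QuotientGroup.eq, mul_one, mul_one]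
    exact inv_mem (hιE w)
  let chi : (X → FreeGroup X ⧸ E → ZMod 2) → FreeGroup Z →* Multiplicative (ZMod 2) := fun f =>
    { toFun := fun w => Multiplicative.ofAdd (kap f (ι w) o)
      map_one' := by rw [map_one, kap_one]; rfl
      map_mul' := by
        intro v w
        rw [map_mul, kap_mul, hfix, add_comm]
        rfl }
  have hchi : ∀ f w, Multiplicative.toAdd (chi f w) = kap f (ι w) o := fun f w => rfl
  let tau : (X → FreeGroup X ⧸ E → ZMod 2) → FreeGroup X ⧸ E → ZMod 2 := fun f q =>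
    kap f q.out o
  have hout : ∀ q : FreeGroup X ⧸ E, q.out • o = q := by
    intro q
    change ((q.out * 1 : FreeGroup X) : FreeGroup X ⧸ E) = q
    rw [mul_one]
    exact q.out_eq'
  let F : (X → FreeGroup X ⧸ E → ZMod 2) →
      (Z → ZMod 2) × ({q : FreeGroup X ⧸ E // q ≠ o} → ZMod 2) := fun f =>
    (fun z => kap f (ι (FreeGroup.of z)) o, fun q => tau f q.1)
  have hF : Function.Injective F := by
    intro f f' hff
    have h1 : chi f = chi f' := by
      ext z
      have h2 := congrFun (congrArg Prod.fst hff) z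
      exact congrArg Multiplicative.ofAdd h2
    have h1' : ∀ w, kap f (ι w) o = kap f' (ι w) o := by
      intro w
      rw [← hchi, ← hchi, h1]
    have h2 : ∀ q, tau f q = tau f' q := by
      intro q
      by_cases hq : q = o
      · subst hq
        have h3 : (o : FreeGroup X ⧸ E).out ∈ E := by
          have h4 := hout o
          have h5 : (((o : FreeGroup X ⧸ E).out * 1 : FreeGroup X) : FreeGroup X ⧸ E) =
            ((1 : FreeGroup X) : FreeGroup X ⧸ E) := h4
          rw [QuotientGroup.eq, mul_one, mul_one] at h5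
          exact (inv_mem_iff (x := (o : FreeGroup X ⧸ E).out)).mp h5
        obtain ⟨w, hw⟩ := hEι _ h3
        change kap f (o : FreeGroup X ⧸ E).out o = kap f' (o : FreeGroup X ⧸ E).out o
        rw [← hw]
        exact h1' w
      · exact congrFun (congrArg Prod.snd hff) ⟨q, hq⟩
    funext z q
    have h3 : (FreeGroup.of z • q).out⁻¹ * (FreeGroup.of z * q.out) ∈ E := by
      rw [← QuotientGroup.eq]
      change (((FreeGroup.of z • q).out : FreeGroup X) : FreeGroup X ⧸ E) =
        FreeGroup.of z • ((q.out : FreeGroup X) : FreeGroup X ⧸ E)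
      have h4 : ((q.out : FreeGroup X) : FreeGroup X ⧸ E) = q := q.out_eq'
      have h5 : (((FreeGroup.of z • q).out : FreeGroup X) : FreeGroup X ⧸ E) =
        FreeGroup.of z • q := (FreeGroup.of z • q).out_eq'
      rw [h4, h5]
    obtain ⟨w, hw⟩ := hEι _ h3
    have h6 : FreeGroup.of z * q.out = (FreeGroup.of z • q).out * ι w := by rw [hw]; group
    have h7 : ∀ g : X → FreeGroup X ⧸ E → ZMod 2,
        tau g q + g z q = kap g (ι w) o + tau g (FreeGroup.of z • q) := by
      intro g
      have h8 := congrArg (fun x => kap g x o) h6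
      simp only [kap_mul, hout, hfix, kap_of] at h8
      exact h8
    have h9 := h7 f
    rw [h1', h2, h2, ← h7 f'] at h9
    exact add_left_cancel h9
  have h1 := Nat.card_le_card_of_injective F hF
  have hidx : Nat.card (FreeGroup X ⧸ E) = E.index := rfl
  have h2 : Nat.card (X → FreeGroup X ⧸ E → ZMod 2) = 2 ^ (Nat.card X * E.index) := by
    rw [Nat.card_fun, Nat.card_fun, Nat.card_zmod, ← pow_mul, hidx, mul_comm]
  have h3 : Nat.card {q : FreeGroup X ⧸ E // q ≠ o} = E.index - 1 := by
    have := Fintype.ofFinite (FreeGroup X ⧸ E)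
    rw [Nat.card_eq_fintype_card, Fintype.card_subtype_compl, Fintype.card_subtype_eq,
      ← Nat.card_eq_fintype_card, hidx]
  have h4 : Nat.card ((Z → ZMod 2) × ({q : FreeGroup X ⧸ E // q ≠ o} → ZMod 2)) =
      2 ^ (Nat.card Z + (E.index - 1)) := by
    rw [Nat.card_prod, Nat.card_fun, Nat.card_fun, Nat.card_zmod, h3, ← pow_add]
  rw [h2, h4] at h1
  have h5 := (Nat.pow_le_pow_iff_right (by norm_num : 1 < 2)).mp h1
  have h6 : E.index ≠ 0 := hfi.index_ne_zero
  omega

theorem finite_above {G : Type} [Group G] (K : Subgroup G) [K.Normal] [K.FiniteIndex] :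
    Finite {E : Subgroup G // K ≤ E} := by
  have : Finite (Subgroup (G ⧸ K)) := by
    have : Finite (Set (G ⧸ K)) := inferInstance
    exact Finite.of_injective (fun H : Subgroup (G ⧸ K) => (H : Set (G ⧸ K)))
      SetLike.coe_injective
  exact Finite.of_equiv _ (QuotientGroup.comapMk'OrderIso K).toEquiv

/-- The level in `good_down` can be chosen for all subgroups of bounded index together. -/
theorem uniform_down {X Z : Type} [Finite X] (z0 z1 : X) (hz : z0 ≠ z1)
    (C : MulAut (FreeGroup X) → Prop) (hC : Good X C)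
    (N : Subgroup (MulAut (FreeGroup Z))) (hN : N.FiniteIndex) (hNn : N.Normal) (B : ℕ) :
    ∃ m : ℕ, ∀ ι : FreeGroup Z →* FreeGroup X, Function.Injective ι → ι.range.index ≠ 0 →
      ι.range.index ≤ B → ∀ (φ : MulAut (FreeGroup Z)) (α : MulAut (FreeGroup X)), C α →
      (∀ w, ι (φ w) = α (ι w)) → φ ∈ cong (FreeGroup Z) m → φ ∈ N := by
  classical
  have hfin := finite_above (L (FreeGroup X) B)
  have key : ∀ E : {E : Subgroup (FreeGroup X) // L (FreeGroup X) B ≤ E}, ∃ m : ℕ,
      ∀ ι : FreeGroup Z →* FreeGroup X, Function.Injective ι → ι.range = E.1 →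
      ∀ (φ : MulAut (FreeGroup Z)) (α : MulAut (FreeGroup X)), C α →
      (∀ w, ι (φ w) = α (ι w)) → φ ∈ cong (FreeGroup Z) m → φ ∈ N := by
    intro E
    by_cases hex : ∃ ι : FreeGroup Z →* FreeGroup X, Function.Injective ι ∧ ι.range = E.1
    swap
    · exact ⟨0, fun ι h1 h2 => absurd ⟨ι, h1, h2⟩ hex⟩
    obtain ⟨ι₀, hι₀, hE₀⟩ := hex
    have hfi : ι₀.range.FiniteIndex := by
      rw [hE₀]
      exact Subgroup.finiteIndex_of_le E.2
    obtain ⟨m, hm⟩ := good_down z0 z1 hz ι₀ hι₀ hfi C hC N hN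
    refine ⟨m, fun ι hι hE φ α hα h hφ => ?_⟩
    have hran : ι.range = ι₀.range := by rw [hE, hE₀]
    let θ : FreeGroup Z ≃* FreeGroup Z :=
      (MonoidHom.ofInjective hι).trans ((MulEquiv.subgroupCongr hran).trans
        (MonoidHom.ofInjective hι₀).symm)
    have hθ : ∀ w, ι₀ (θ w) = ι w := by
      intro w
      have h1 := MonoidHom.apply_ofInjective_symm hι₀
        ((MulEquiv.subgroupCongr hran) (MonoidHom.ofInjective hι w))
      exact h1
    have h1 : MulAut.congr θ φ ∈ N := by
      refine hm _ ⟨α, hα, ?_⟩ (congr_mem_cong θ hφ)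
      intro w
      change ι₀ (θ (φ (θ.symm w))) = _
      rw [hθ, h, ← hθ, MulEquiv.apply_symm_apply]
    let χ : MulAut (FreeGroup Z) := θ
    have h2 : MulAut.congr θ φ = χ * φ * χ⁻¹ := by
      ext1 w
      rfl
    rw [h2] at h1
    have h3 := hNn.conj_mem _ h1 χ⁻¹
    have h4 : χ⁻¹ * (χ * φ * χ⁻¹) * χ⁻¹⁻¹ = φ := by group
    rwa [h4] at h3
  choose M hM using key
  obtain ⟨m, hm⟩ : ∃ m : ℕ, ∀ E, M E ≤ m := by
    obtain ⟨m, hm⟩ := (Set.finite_range M).bddAbove
    exact ⟨m, fun E => hm ⟨E, rfl⟩⟩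
  refine ⟨m, fun ι hι h0 hB φ α hα h hφ => ?_⟩
  have hE : L (FreeGroup X) B ≤ ι.range := by
    have hfi : ι.range.FiniteIndex := ⟨h0⟩
    have hfinq : Finite (FreeGroup X ⧸ ι.range) := inferInstance
    refine le_trans (L_anti hB) ?_
    let e : (FreeGroup X ⧸ ι.range) ≃ Fin ι.range.index := Finite.equivFinOfCardEq rfl
    intro x hx
    have h1 := mem_L.mp hx
      (e.permCongrHom.toMonoidHom.comp (MulAction.toPermHom (FreeGroup X) (FreeGroup X ⧸ ι.range)))
    have h2 : e.permCongrHom (MulAction.toPermHom (FreeGroup X) (FreeGroup X ⧸ ι.range) x) = 1 := h1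
    have h3 : MulAction.toPermHom (FreeGroup X) (FreeGroup X ⧸ ι.range) x = 1 :=
      (map_eq_one_iff _ e.permCongrHom.injective).mp h2
    have h4 := congrArg (fun f : Equiv.Perm (FreeGroup X ⧸ ι.range) =>
      f ((1 : FreeGroup X) : FreeGroup X ⧸ ι.range)) h3
    have h5 : ((x * 1 : FreeGroup X) : FreeGroup X ⧸ ι.range) =
      ((1 : FreeGroup X) : FreeGroup X ⧸ ι.range) := h4
    rw [QuotientGroup.eq, mul_one, mul_one] at h5
    exact (inv_mem_iff (x := x)).mp h5
  exact hM ⟨ι.range, hE⟩ ι hι rfl φ α hα h (cong_anti (hm _) hφ)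

end Pool.Agent.CSPBir
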