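import Mathlib
import Pool.Agent.CSPBir.Deep
import Pool.Agent.CSPBir.Down

set_option autoImplicit false

/-! The congruence subgroup property for Birman extensions of groups and for restrictions of groups
to subgroups of finite index. -/

namespace Pool.Agent.CSPBir

open Pool.Agent.CSPHier

section birman

variable {X : Type}

/-- **Birman extensions.** -/
theorem csp_birman [Finite X] (P : Subgroup (MulAut (FreeGroup X))) (hP : Csp X P)
    (d : FreeGroup X) (p : FreeGroup X →* MulAut (FreeGroup (Option X))) (hp : IsPush d p)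
    (Q : Subgroup (MulAut (FreeGroup (Option X))))
    (hQ : ∀ φ, φ ∈ Q ↔ ∃ (c : FreeGroup X) (β : MulAut (FreeGroup X)), β ∈ P ∧
      φ = p c * extO β) :
    Csp (Option X) Q := by
  intro N hN
  have hext : ∀ β ∈ P, extO β ∈ Q := by
    intro β hβ
    rw [hQ]
    exact ⟨1, β, hβ, by rw [map_one, one_mul]⟩
  have hpush : ∀ c, p c ∈ Q := by
    intro c
    rw [hQ]
    exact ⟨c, 1, one_mem _, by rw [map_one, mul_one]⟩
  obtain ⟨mX, hmX⟩ := hP (N.comap extO) (comap_relIndex _ _ Q _ hext hN)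
  obtain ⟨mp, hmp⟩ := exists_L_le (N.comap p) (comap_finiteIndex' _ Q _ hpush hN)
  obtain ⟨m1, hm1⟩ : ∃ m1, m1 = max mX mp := ⟨_, rfl⟩
  obtain ⟨m2, hm2⟩ := malnormal (fac ({none} : Set (Option X)) ⊔ L _ m1)
    (fac_sup_finiteIndex _ _) {none} le_sup_left none rfl
  obtain ⟨m4, hm4⟩ := L_le_ker (Multiplicative (ZMod 3))
  refine ⟨max (max m1 m2) m4, fun φ hφ hφm => ?_⟩
  obtain ⟨c, β, hβ, rfl⟩ := (hQ φ).mp hφ
  have hφ1 : p c * extO β ∈ cong _ m1 :=
    cong_anti ((le_max_left _ _).trans (le_max_left _ _)) hφm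
  have hφ2 : p c * extO β ∈ cong _ m2 :=
    cong_anti ((le_max_right _ _).trans (le_max_left _ _)) hφm
  have hφ4 : p c * extO β ∈ cong _ m4 := cong_anti (le_max_right _ _) hφm
  have hβ1 : β ∈ cong (FreeGroup X) m1 := by
    rw [mem_cong]
    intro w
    have h1 := L_map retO (mem_cong.mp hφ1 (FreeGroup.map some w))
    rw [map_mul, map_inv, retO_some, MulAut.mul_apply, extO_some, hp.triv, retO_some] at h1
    exact h1
  have n1 : extO β ∈ N := hmX β hβ (cong_anti (by rw [hm1]; exact le_max_left _ _) hβ1)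
  obtain ⟨h, hh2, hh⟩ := hp.moves c
  have hh1 : p c (FreeGroup.of none) = h * FreeGroup.of none * h⁻¹ := by
    rcases hh with hh | hh
    · exact hh
    · exfalso
      have h1 := hm4 (deg3 (X := X)) (mem_cong.mp hφ4 (FreeGroup.of none))
      rw [MulAut.mul_apply, extO_none, hh, MonoidHom.mem_ker, map_mul, map_mul, map_mul, map_inv,
        map_inv, deg3_none] at h1
      have h2 : (Multiplicative.ofAdd (1 : ZMod 3))⁻¹ * (Multiplicative.ofAdd (1 : ZMod 3))⁻¹ =
          1 := by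
        rw [← h1]
        have h3 : ∀ y z : Multiplicative (ZMod 3), z⁻¹ * z⁻¹ = y * z⁻¹ * y⁻¹ * z⁻¹ := by
          intro y z
          rw [mul_comm y, mul_inv_cancel_right]
        exact h3 _ _
      revert h2; decide
  have e1 := mem_cong.mp hφ2 (FreeGroup.of none)
  rw [MulAut.mul_apply, extO_none, hh1] at e1
  obtain ⟨i, l, hl, hgl⟩ := mem_fac_none (hm2 _ _ (of_mem_fac (Set.mem_singleton none)) e1)
  have e4 := congrArg retO hgl
  rw [hh2, map_mul, map_zpow, retO_none, one_zpow, one_mul] at e4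
  have hc : c⁻¹ ∈ L (FreeGroup X) m1 := by
    rw [e4]
    exact L_map retO hl
  have n2 : p c⁻¹ ∈ N := hmp (L_anti (by rw [hm1]; exact le_max_right _ _) hc)
  have n3 : p c ∈ N := by
    rw [map_inv] at n2
    exact (inv_mem_iff (x := p c)).mp n2
  exact mul_mem n3 n1

/-- **Birman extensions together with the inner automorphisms.** -/
theorem csp_birman_inner [Finite X] (P : Subgroup (MulAut (FreeGroup X))) (hP : Csp X P)
    (d : FreeGroup X) (hPd : ∀ β ∈ P, β d = d) (hd : MulAut.conj d ∈ P)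
    (p : FreeGroup X →* MulAut (FreeGroup (Option X))) (hp : IsPush d p)
    (Q : Subgroup (MulAut (FreeGroup (Option X))))
    (hQ : ∀ φ, φ ∈ Q ↔ ∃ (g : FreeGroup (Option X)) (c : FreeGroup X)
      (β : MulAut (FreeGroup X)), β ∈ P ∧ φ = MulAut.conj g * (p c * extO β)) :
    Csp (Option X) Q := by
  intro N hN
  have hext : ∀ β ∈ P, extO β ∈ Q := by
    intro β hβ
    rw [hQ]
    exact ⟨1, 1, β, hβ, by rw [map_one, map_one, one_mul, one_mul]⟩
  have hpush : ∀ c, p c ∈ Q := by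
    intro c
    rw [hQ]
    exact ⟨1, c, 1, one_mem _, by rw [map_one, map_one, mul_one, one_mul]⟩
  have hconj : ∀ g, MulAut.conj g ∈ Q := by
    intro g
    rw [hQ]
    exact ⟨g, 1, 1, one_mem _, by rw [map_one, map_one, mul_one, mul_one]⟩
  obtain ⟨mX, hmX⟩ := hP (N.comap extO) (comap_relIndex _ _ Q _ hext hN)
  obtain ⟨mp, hmp⟩ := exists_L_le (N.comap p) (comap_finiteIndex' _ Q _ hpush hN)
  obtain ⟨mc, hmc⟩ := exists_L_le (N.comap (MulAut.conj : FreeGroup (Option X) →* _))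
    (comap_finiteIndex' _ Q _ hconj hN)
  obtain ⟨mA, hmA⟩ : ∃ mA, mA = max mX (max mc mp) := ⟨_, rfl⟩
  have l1 : mX ≤ mA := by rw [hmA]; exact le_max_left _ _
  have l2 : mc ≤ mA := by rw [hmA]; exact (le_max_left _ _).trans (le_max_right _ _)
  have l3 : mp ≤ mA := by rw [hmA]; exact (le_max_right _ _).trans (le_max_right _ _)
  obtain ⟨m2, hm2⟩ := malnormal (fac ({none} : Set (Option X)) ⊔ L _ mA)
    (fac_sup_finiteIndex _ _) {none} le_sup_left none rfl
  obtain ⟨m3, hm3⟩ := malnormal (fac ({none} : Set (Option X)) ⊔ L _ (max mA m2))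
    (fac_sup_finiteIndex _ _) {none} le_sup_left none rfl
  obtain ⟨m4, hm4⟩ := L_le_ker (Multiplicative (ZMod 3))
  refine ⟨max (max (max mA m2) m3) m4, ?_⟩
  intro φ hφQ hφ
  obtain ⟨g, c, β, hβ, rfl⟩ := (hQ φ).mp hφQ
  have hβd := hPd β hβ
  have hφB : MulAut.conj g * (p c * extO β) ∈ cong _ (max mA m2) :=
    cong_anti ((le_max_left _ _).trans (le_max_left _ _)) hφ
  have hφ3 : MulAut.conj g * (p c * extO β) ∈ cong _ m3 :=
    cong_anti ((le_max_right _ _).trans (le_max_left _ _)) hφ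
  have hφ4 : MulAut.conj g * (p c * extO β) ∈ cong _ m4 := cong_anti (le_max_right _ _) hφ
  obtain ⟨u, hu⟩ : ∃ u, u = FreeGroup.map some d * FreeGroup.of (none : Option X) := ⟨_, rfl⟩
  have hpu : ∀ c, p c u = u := by intro c; rw [hu]; exact hp.fixes c
  have heu : extO β u = u := by rw [hu, map_mul, extO_some, extO_none, hβd]
  have hru : retO u = d := by rw [hu, map_mul, retO_some, retO_none, mul_one]
  obtain ⟨k, l, hl, hgl⟩ : ∃ (k : ℤ) (l : FreeGroup (Option X)),
      l ∈ L (FreeGroup (Option X)) (max mA m2) ∧ g = l * u ^ k := by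
    have e1 := mem_cong.mp hφ3 u
    rw [MulAut.mul_apply, MulAut.mul_apply, heu, hpu, MulAut.conj_apply] at e1
    have e2 : (chi d)⁻¹ g * FreeGroup.of none * ((chi d)⁻¹ g)⁻¹ * (FreeGroup.of none)⁻¹ ∈
        L (FreeGroup (Option X)) m3 := by
      rw [← L_apply_iff (chi d), map_mul, map_mul, map_mul, map_inv, map_inv, chi_none,
        MulAut.apply_inv_self, ← hu]
      exact e1
    obtain ⟨k, l, hl, hgl⟩ := mem_fac_none (hm3 _ _ (of_mem_fac (Set.mem_singleton none)) e2)
    have e3 : g = u ^ k * chi d l := by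
      have h1 := congrArg (chi d) hgl
      rw [MulAut.apply_inv_self, map_mul, map_zpow, chi_none, ← hu] at h1
      exact h1
    refine ⟨k, u ^ k * chi d l * (u ^ k)⁻¹, (L_normal _).conj_mem _ (L_map (chi d).toMonoidHom hl) _,
      ?_⟩
    rw [e3]
    group
  have hlN : MulAut.conj l ∈ N := hmc (L_anti (l2.trans (le_max_left _ _)) hl)
  obtain ⟨φ0, hφ0⟩ : ∃ φ0, φ0 = MulAut.conj u ^ k * (p c * extO β) := ⟨_, rfl⟩
  have hφφ0 : MulAut.conj g * (p c * extO β) = MulAut.conj l * φ0 := by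
    rw [hgl, hφ0, map_mul, map_zpow, mul_assoc]
  rw [hφφ0] at hφB ⊢
  refine mul_mem hlN ?_
  have hφ0B : φ0 ∈ cong _ (max mA m2) := by
    have h1 : φ0 = (MulAut.conj l)⁻¹ * (MulAut.conj l * φ0) := by group
    rw [h1]
    exact mul_mem (inv_mem (conj_mem_cong hl)) hφB
  obtain ⟨β', hβ'⟩ : ∃ β' : MulAut (FreeGroup X), β' = MulAut.conj (d ^ k) * β := ⟨_, rfl⟩
  have hβ'c : β' ∈ cong (FreeGroup X) mA := by
    rw [mem_cong]
    intro w
    have h1 := L_map retO (mem_cong.mp (cong_anti (le_max_left _ _) hφ0B) (FreeGroup.map some w))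
    rw [hφ0, map_mul, map_inv, retO_some, MulAut.mul_apply, MulAut.mul_apply, extO_some,
      ← map_zpow, MulAut.conj_apply, map_mul, map_mul, hp.triv, retO_some, map_inv, map_zpow,
      hru] at h1
    rw [hβ', MulAut.mul_apply, MulAut.conj_apply]
    exact h1
  have hβ'N : extO β' ∈ N := by
    refine hmX β' ?_ (cong_anti l1 hβ'c)
    rw [hβ', map_zpow]
    exact mul_mem (zpow_mem hd _) hβ
  obtain ⟨h, hh2, hh⟩ := hp.moves c
  have hh1 : p c (FreeGroup.of none) = h * FreeGroup.of none * h⁻¹ := by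
    rcases hh with hh | hh
    · exact hh
    · exfalso
      have h1 := hm4 (deg3 (X := X)) (mem_cong.mp hφ4 (FreeGroup.of none))
      rw [MulAut.mul_apply, MulAut.mul_apply, extO_none, hh, MulAut.conj_apply, MonoidHom.mem_ker,
        map_mul, map_mul, map_mul, map_mul, map_mul, map_inv, map_inv, map_inv, deg3_none] at h1
      have h2 : (Multiplicative.ofAdd (1 : ZMod 3))⁻¹ * (Multiplicative.ofAdd (1 : ZMod 3))⁻¹ =
          1 := by
        rw [← h1]
        have h3 : ∀ x y z : Multiplicative (ZMod 3), z⁻¹ * z⁻¹ = x * (y * z⁻¹ * y⁻¹) * x⁻¹ * z⁻¹ := by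
          intro x y z
          rw [mul_comm x, mul_inv_cancel_right, mul_comm y, mul_inv_cancel_right]
        exact h3 _ _ _
      revert h2; decide
  have hpN : p (d ^ k * c⁻¹) ∈ N := by
    have e1 := mem_cong.mp (cong_anti (le_max_right _ _) hφ0B) (FreeGroup.of none)
    rw [hφ0, MulAut.mul_apply, MulAut.mul_apply, extO_none, hh1, ← map_zpow,
      MulAut.conj_apply] at e1
    have e2 : (u ^ k * h) * FreeGroup.of none * (u ^ k * h)⁻¹ * (FreeGroup.of none)⁻¹ ∈
        L (FreeGroup (Option X)) m2 := by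
      have e3 : (u ^ k * h) * FreeGroup.of none * (u ^ k * h)⁻¹ * (FreeGroup.of none)⁻¹ =
        u ^ k * (h * FreeGroup.of none * h⁻¹) * (u ^ k)⁻¹ * (FreeGroup.of none)⁻¹ := by group
      rw [e3]
      exact e1
    obtain ⟨i, l', hl', hgl'⟩ := mem_fac_none (hm2 _ _ (of_mem_fac (Set.mem_singleton none)) e2)
    have e4 := congrArg retO hgl'
    rw [map_mul, map_mul, map_zpow, map_zpow, hru, hh2, retO_none, one_zpow, one_mul] at e4
    have e5 : d ^ k * c⁻¹ ∈ L (FreeGroup X) mA := by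
      rw [e4]
      exact L_map retO hl'
    exact hmp (L_anti l3 e5)
  have hcomm' : ∀ c', Commute (MulAut.conj u) (p c') := by
    intro c'
    change MulAut.conj u * p c' = p c' * MulAut.conj u
    ext1 w
    rw [MulAut.mul_apply, MulAut.mul_apply, MulAut.conj_apply, MulAut.conj_apply, map_mul (p c'),
      map_mul (p c'), map_inv (p c'), hpu]
  have hcomm : Commute (MulAut.conj u) (p d) := hcomm' d
  have hfull : MulAut.conj u * p d = extO (MulAut.conj d) := by
    rw [hp.full, ← hu, mul_inv_cancel_left]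
  have hpc : p c = (p (d ^ k * c⁻¹))⁻¹ * p d ^ k := by
    rw [← map_inv, ← map_zpow, ← map_mul]
    congr 1
    group
  have hcomm2 : Commute (MulAut.conj u) (p (d ^ k * c⁻¹)) := hcomm' _
  have hfin : φ0 = (p (d ^ k * c⁻¹))⁻¹ * extO β' := by
    have h1 : extO β' = MulAut.conj u ^ k * p d ^ k * extO β := by
      rw [hβ', map_mul, map_zpow, map_zpow, ← hfull, hcomm.mul_zpow]
    have h2 : MulAut.conj u ^ k * (p (d ^ k * c⁻¹))⁻¹ =
        (p (d ^ k * c⁻¹))⁻¹ * MulAut.conj u ^ k := ((hcomm2.zpow_left k).inv_right).eq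
    rw [h1, hφ0, hpc, ← mul_assoc, ← mul_assoc, h2]
    simp only [mul_assoc]
  rw [hfin]
  exact mul_mem (inv_mem hpN) hβ'N

end birman

/-- **Restrictions to a subgroup of finite index.** -/
theorem csp_cover {X Z : Type} [Finite X] (z0 z1 : X) (hz : z0 ≠ z1)
    (ι : FreeGroup Z →* FreeGroup X) (hι : Function.Injective ι) (hfi : ι.range.FiniteIndex)
    (P : Subgroup (MulAut (FreeGroup X))) (hP : Csp X P)
    (Q : Subgroup (MulAut (FreeGroup Z)))
    (hQ : ∀ φ, φ ∈ Q ↔ ∃ α ∈ P, ∀ w, ι (φ w) = α (ι w)) : Csp Z Q := by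
  intro N hN
  obtain ⟨m0, hm0⟩ := exists_L_le ι.range hfi
  have hN2 : ((N.comap (res ι hι m0 hm0)).map (cong (FreeGroup X) m0).subtype).relIndex P ≠ 0 := by
    have h1 : (N.comap (res ι hι m0 hm0)).relIndex (P.subgroupOf (cong (FreeGroup X) m0)) ≠ 0 := by
      refine comap_relIndex _ _ Q _ ?_ hN
      intro α hα
      rw [hQ]
      exact ⟨α.1, hα, fun w => res_spec ι hι m0 hm0 α w⟩
    have h2 : ((N.comap (res ι hι m0 hm0)).map (cong (FreeGroup X) m0).subtype).relIndex
        ((P.subgroupOf (cong (FreeGroup X) m0)).map (cong (FreeGroup X) m0).subtype) ≠ 0 := by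
      rw [Subgroup.relIndex_map_map_of_injective _ _ (Subgroup.subtype_injective _)]
      exact h1
    rw [Subgroup.subgroupOf_map_subtype] at h2
    have h3 : (cong (FreeGroup X) m0).relIndex P ≠ 0 := by
      intro h4
      have h5 : (cong (FreeGroup X) m0).index ≠ 0 := (cong_finiteIndex (X := X) m0).index_ne_zero
      exact h5 (Nat.eq_zero_of_zero_dvd (h4 ▸ Subgroup.relIndex_dvd_index_of_normal _ _))
    refine Subgroup.relIndex_ne_zero_trans (K := P ⊓ cong (FreeGroup X) m0) h2 ?_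
    rwa [Subgroup.inf_relIndex_left]
  obtain ⟨m, hm⟩ := hP _ hN2
  obtain ⟨m', hm'⟩ := centralizer_level z0 z1 hz (L (FreeGroup X) m0) inferInstance m
  refine ⟨m', ?_⟩
  intro φ hφQ hφ
  obtain ⟨α, hα, h⟩ := (hQ φ).mp hφQ
  have hran : ∀ e ∈ ι.range, α e * e⁻¹ ∈ L (FreeGroup X) m' := by
    rintro _ ⟨w, rfl⟩
    rw [← h, ← map_inv, ← map_mul]
    exact L_map ι (mem_cong.mp hφ w)
  have hαm : α ∈ cong (FreeGroup X) m := by
    rw [mem_cong]
    intro x
    have ht : x⁻¹ * α x ∈ L (FreeGroup X) m := by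
      refine hm' _ ?_
      intro d hd
      have h1 := hran d (hm0 hd)
      have h2 := hran (x * d * x⁻¹) (hm0 ((L_normal m0).conj_mem _ hd x))
      rw [map_mul, map_mul, map_inv] at h2
      rw [← QuotientGroup.ker_mk' (L (FreeGroup X) m'), MonoidHom.mem_ker] at h1 h2 ⊢
      obtain ⟨q, hq⟩ : ∃ q, q = QuotientGroup.mk' (L (FreeGroup X) m') := ⟨_, rfl⟩
      rw [← hq] at h1 h2 ⊢
      simp only [map_mul, map_inv] at h1 h2 ⊢
      have h3 : q (α d) = q d := mul_inv_eq_one.mp h1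
      rw [h3] at h2
      have h4 : q (α x) * q d * (q (α x))⁻¹ = q x * q d * (q x)⁻¹ := mul_inv_eq_one.mp h2
      have h5 : (q x)⁻¹ * q (α x) * q d * ((q x)⁻¹ * q (α x))⁻¹ * (q d)⁻¹ =
          (q x)⁻¹ * (q (α x) * q d * (q (α x))⁻¹) * q x * (q d)⁻¹ := by group
      rw [h5, h4]
      group
    have h1 := (L_normal m).conj_mem _ ht x
    have h2 : x * (x⁻¹ * α x) * x⁻¹ = α x * x⁻¹ := by group
    rwa [h2] at h1
  obtain ⟨a, ha, rfl⟩ := hm α hα hαm
  have h1 : res ι hι m0 hm0 a = φ := by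
    ext1 w
    apply hι
    rw [res_spec, h]
    rfl
  rw [← h1]
  exact ha

/-- In rank at most one, an automorphism which is trivial modulo a deep level is trivial. -/
theorem trivial_of_subsingleton {X : Type} [Subsingleton X] :
    ∃ m : ℕ, ∀ α ∈ cong (FreeGroup X) m, α = 1 := by
  rcases isEmpty_or_nonempty X with hE | ⟨⟨x⟩⟩
  · refine ⟨0, fun α _ => ?_⟩
    apply MulEquiv.toMonoidHom_injective
    ext x
    exact isEmptyElim x
  have hu : Unique X := ⟨⟨x⟩, fun y => Subsingleton.elim _ _⟩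
  obtain ⟨m3, hm3⟩ := L_le_ker (Multiplicative (ZMod 3))
  refine ⟨m3, fun α hα => ?_⟩
  have hz : ∀ w : FreeGroup X, ∃ k : ℤ, w = (FreeGroup.of x) ^ k := by
    intro w
    induction w using FreeGroup.induction_on with
    | C1 => exact ⟨0, by simp⟩
    | of i => exact ⟨1, by rw [zpow_one, Subsingleton.elim i x]⟩
    | inv_of i ih => obtain ⟨k, hk⟩ := ih; exact ⟨-k, by rw [hk, zpow_neg]⟩
    | mul u v hu hv =>
      obtain ⟨k, hk⟩ := hu
      obtain ⟨l, hl⟩ := hv
      exact ⟨k + l, by rw [hk, hl, zpow_add]⟩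
  obtain ⟨k, hk⟩ := hz (α (FreeGroup.of x))
  obtain ⟨l, hl⟩ := hz (α⁻¹ (FreeGroup.of x))
  let d : FreeGroup X →* Multiplicative ℤ := FreeGroup.lift (fun _ => Multiplicative.ofAdd 1)
  have hd : ∀ k : ℤ, d ((FreeGroup.of x) ^ k) = Multiplicative.ofAdd k := by
    intro k
    rw [map_zpow]
    simp [d, ← ofAdd_zsmul]
  have h1 : (FreeGroup.of x) ^ (l * k) = (FreeGroup.of x) ^ (1 : ℤ) := by
    rw [mul_comm, zpow_mul, ← hk, ← map_zpow, ← hl, MulAut.apply_inv_self, zpow_one]
  have h2 := congrArg d h1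
  rw [hd, hd] at h2
  have h3 : l * k = 1 := Multiplicative.ofAdd.injective h2
  have h4 : k = 1 ∨ k = -1 := Int.isUnit_iff.mp (IsUnit.of_mul_eq_one l (by rw [mul_comm]; exact h3))
  let d3 : FreeGroup X →* Multiplicative (ZMod 3) :=
    FreeGroup.lift (fun _ => Multiplicative.ofAdd 1)
  have hd3 : d3 (FreeGroup.of x) = Multiplicative.ofAdd 1 := by simp [d3]
  have h5 := hm3 d3 (mem_cong.mp hα (FreeGroup.of x))
  have h6 : α (FreeGroup.of x) = FreeGroup.of x := by
    rcases h4 with rfl | rfl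
    · rw [hk, zpow_one]
    · exfalso
      rw [hk, MonoidHom.mem_ker, map_mul, map_inv, map_zpow, hd3] at h5
      revert h5; decide
  apply MulEquiv.toMonoidHom_injective
  ext y
  rw [Subsingleton.elim y x]
  exact h6

/-- Groups of automorphisms of free groups of rank at most one. -/
theorem csp_subsingleton {X : Type} [Subsingleton X] (P : Subgroup (MulAut (FreeGroup X))) :
    Csp X P := by
  intro N _
  obtain ⟨m, hm⟩ := trivial_of_subsingleton (X := X)
  refine ⟨m, fun α _ hα => ?_⟩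
  rw [hm α hα]
  exact one_mem _

end Pool.Agent.CSPBir
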